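import Pool.Agent.H92.S2.LUT2
import Pool.Agent.H92.SF.JET
import Pool.Agent.H62.HIL.Eig

/-!
# MP_70ba79_ag, THEOREM S: degrees of the coefficients in the chart
-/

set_option autoImplicit false

namespace Pool.Agent.H92.S2.DEG

open MvPolynomial
open Pool.Agent.H84.SM (dp cr dt)
open Pool.Agent.H3.SF Pool.Agent.H3.S2 Pool.Agent.H92.SF Pool.Agent.H92.S2
open Pool.Agent.H62.HIL (hm_mul hm_add hm_neg hm_sub hm_one hm_zero hm_sum)

section

variable {k F : Type} [Field k] [Field F] [Algebra k F]

/-- graded elements of the chart ring -/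
def HC (E : Derivation k F F) (κ s : ℤ) (W : C3 F) : Prop :=
  ∀ (j : ℕ) (a : Fin 3 →₀ ℕ), Hm k E (s - j * κ) ((W.coeff j).coeff a)

variable {E : Derivation k F F} {κ : ℤ}

theorem HC.add {s : ℤ} {W W' : C3 F} (h : HC E κ s W) (h' : HC E κ s W') :
    HC E κ s (W + W') := by
  intro j a
  rw [Polynomial.coeff_add, coeff_add]
  exact hm_add (h j a) (h' j a)

theorem HC.sub {s : ℤ} {W W' : C3 F} (h : HC E κ s W) (h' : HC E κ s W') :
    HC E κ s (W - W') := by
  intro j a
  rw [Polynomial.coeff_sub, coeff_sub]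
  exact hm_sub (h j a) (h' j a)

theorem HC.zero (s : ℤ) : HC E κ s (0 : C3 F) := by
  intro j a
  rw [Polynomial.coeff_zero, coeff_zero]
  exact hm_zero _

theorem HC.sum {ι : Type} {s : ℤ} (S : Finset ι) (f : ι → C3 F) (h : ∀ i ∈ S, HC E κ s (f i)) :
    HC E κ s (∑ i ∈ S, f i) := by
  classical
  induction S using Finset.induction_on with
  | empty => exact HC.zero s
  | insert a S ha ih =>
    rw [Finset.sum_insert ha]
    exact (h a (Finset.mem_insert_self a S)).add (ih fun i hi => h i (Finset.mem_insert_of_mem hi))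

theorem HC.mul {s s' : ℤ} {W W' : C3 F} (h : HC E κ s W) (h' : HC E κ s' W') :
    HC E κ (s + s') (W * W') := by
  intro j a
  rw [Polynomial.coeff_mul, coeff_sum]
  apply hm_sum
  intro x hx
  rw [coeff_mul]
  apply hm_sum
  intro y hy
  have h1 := hm_mul (h x.1 y.1) (h' x.2 y.2)
  have h2 : (x.1 : ℤ) + x.2 = j := by
    have := Finset.HasAntidiagonal.mem_antidiagonal.1 hx
    exact_mod_cast this
  have h3 : s - x.1 * κ + (s' - x.2 * κ) = s + s' - j * κ := by
    rw [← h2]
    ring
  rwa [h3] at h1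

theorem HC.one : HC E κ 0 (1 : C3 F) := by
  intro j a
  rw [Polynomial.coeff_one]
  split_ifs with hj
  · rw [coeff_one]
    subst hj
    split_ifs with ha
    · simpa using hm_one (κ := k) (E := E)
    · exact hm_zero _
  · rw [coeff_zero]
    exact hm_zero _

theorem HC.pow {s : ℤ} {W : C3 F} (h : HC E κ s W) (n : ℕ) : HC E κ (n * s) (W ^ n) := by
  induction n with
  | zero => simpa using HC.one (E := E) (κ := κ)
  | succ n ih =>
    rw [pow_succ]
    have h1 := ih.mul h
    have h2 : (n : ℤ) * s + s = ((n + 1 : ℕ) : ℤ) * s := by push_cast; ring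
    rwa [h2] at h1

theorem HC.cst {s : ℤ} {z : F} (h : Hm k E s z) : HC E κ s (cc z) := by
  intro j a
  show Hm k E (s - j * κ) (((Polynomial.C (C z)).coeff j).coeff a)
  rw [Polynomial.coeff_C]
  split_ifs with hj
  · rw [coeff_C]
    subst hj
    split_ifs with ha
    · simpa using h
    · exact hm_zero _
  · rw [coeff_zero]
    exact hm_zero _

theorem HC.rv (i : Fin 3) : HC E κ 0 (rv i : C3 F) := by
  intro j a
  show Hm k E (0 - j * κ) (((Polynomial.C (X i)).coeff j).coeff a)
  rw [Polynomial.coeff_C]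
  split_ifs with hj
  · subst hj
    rw [coeff_X']
    split_ifs with ha
    · simpa using hm_one (κ := k) (E := E)
    · exact hm_zero _
  · rw [coeff_zero]
    exact hm_zero _

theorem HC.zv : HC E κ κ (zv : C3 F) := by
  intro j a
  show Hm k E (κ - j * κ) (((Polynomial.X : C3 F).coeff j).coeff a)
  rw [Polynomial.coeff_X]
  split_ifs with hj
  · subst hj
    rw [coeff_one]
    split_ifs with ha
    · simpa using hm_one (κ := k) (E := E)
    · exact hm_zero _
  · rw [coeff_zero]
    exact hm_zero _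

theorem HC.congr {s s' : ℤ} {W : C3 F} (h : HC E κ s W) (hs : s = s') : HC E κ s' W := by
  rwa [← hs]

end

theorem pf_DEG2 (hDAT : T_DAT2) : T_DEG2 := by
  intro k F _ _ _ _ _ u dd δ j0 c0 J m G hBs n τ V hV
  obtain ⟨hD, hu0, hJ0, hmG0, hu, hJ, hg, hh, -, -⟩ := hDAT k F u dd δ j0 c0 J m G hBs
  set κ : ℤ := 2 * m + 6 * j0 - 3 with hκ
  set E := eu u dd with hE
  have hmG : Hm k E (m : ℤ) ((m : F) * G) := by
    have h1 := hBs.hom
    unfold Hm at h1 ⊢
    rw [Derivation.leibniz, h1]
    simp only [smul_eq_mul]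
    have h2 : E (m : F) = 0 := by
      have := Derivation.map_natCast E m
      exact this
    rw [h2]
    ring
  have hmu : HC E κ 1 (muc u) := by
    unfold muc dp
    apply HC.sum
    intro i _
    exact ((HC.cst (hu i)).mul (HC.rv i)).congr (by ring)
  have hcs : HC E κ j0 (cc (aeval u J) : C3 F) := HC.cst hJ
  have hpc : ∀ i, HC E κ (2 * j0 + m) (pc m u (grd dd G) G (aeval u J) i) := by
    intro i
    unfold pc
    have h1 : HC E κ (m : ℤ) (cc (grd dd G i) * muc u) :=
      ((HC.cst (hg i)).mul hmu).congr (by ring)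
    have h2 : HC E κ (m : ℤ) (cc ((m : F) * G) * rv i) :=
      ((HC.cst hmG).mul (HC.rv i)).congr (by ring)
    exact ((hcs.pow 2).mul (h1.sub h2)).congr (by push_cast; ring)
  have hgx : ∀ i, HC E κ ((m : ℤ) - 1) (gxr (grd dd G) i) := by
    intro i
    unfold gxr cr
    exact (((HC.cst (hg _)).mul (HC.rv _)).congr (by ring)).sub
      (((HC.cst (hg _)).mul (HC.rv _)).congr (by ring))
  have hhq : HC E κ (3 * m - 4) (hq (fun i j => cc (hes dd G i j)) (gxr (grd dd G))
      (gxr (grd dd G))) := by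
    unfold hq
    apply HC.sum
    intro i _
    apply HC.sum
    intro j _
    exact (((HC.cst (hh i j)).mul (hgx i)).mul (hgx j)).congr (by ring)
  have hwc : HC E κ (6 * j0 + 3 * m - 3)
      (wc m u (grd dd G) G (hes dd G) (aeval u J)) := by
    unfold wc
    have h1 : HC E κ (6 * j0 + 3 * m - 3) (cc ((m : F) * G) * zv) :=
      ((HC.cst hmG).mul HC.zv).congr (by rw [hκ]; ring)
    have h2 : HC E κ (6 * j0 + 3 * m - 3) (cc (aeval u J) ^ 6 *
        hq (fun i j => cc (hes dd G i j)) (gxr (grd dd G)) (gxr (grd dd G)) * muc u) :=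
      (((hcs.pow 6).mul hhq).mul hmu).congr (by push_cast; ring)
    exact h1.sub h2
  have hPs : HC E κ (τ + n * ((m : ℤ) + 2 * j0 - 2)) (Ps u dd J m G V) := by
    have h0 : Ps u dd J m G V = V.sum fun j v =>
        (MvPolynomial.eval₂Hom cc ![pc m u (grd dd G) G (aeval u J) 1,
          pc m u (grd dd G) G (aeval u J) 2] v) *
          (wc m u (grd dd G) G (hes dd G) (aeval u J)) ^ j := by
      show Polynomial.eval₂ _ _ V = _
      rw [Polynomial.eval₂_eq_sum]
    rw [h0, Polynomial.sum_def]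
    apply HC.sum
    intro j hj
    have hjne : V.coeff j ≠ 0 := Polynomial.mem_support_iff.1 hj
    have hjn : 3 * j ≤ n := by
      by_contra hlt
      exact hjne ((hV.1 j).2 (by omega))
    have hhom := (hV.1 j).1 hjn
    have h1 : HC E κ (τ - 2 * n + 3 * j + ((n : ℤ) - 3 * j) * (2 * j0 + m))
        (MvPolynomial.eval₂Hom cc ![pc m u (grd dd G) G (aeval u J) 1,
          pc m u (grd dd G) G (aeval u J) 2] (V.coeff j)) := by
      rw [MvPolynomial.coe_eval₂Hom, MvPolynomial.eval₂_eq']
      apply HC.sum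
      intro a ha
      have ha1 : (V.coeff j).coeff a ≠ 0 := MvPolynomial.mem_support_iff.1 ha
      have ha2 := hhom ha1
      have ha3 : a 0 + a 1 + 3 * j = n := by
        have h4 : a.degree = a 0 + a 1 := by
          rw [Finsupp.degree_eq_sum, Fin.sum_univ_two]
        have h5 : a.degree = n - 3 * j := by
          rw [Finsupp.degree_eq_weight_one]
          exact ha2
        omega
      rw [Fin.prod_univ_two]
      have h5 := (HC.cst (κ := κ) (hV.2 j a)).mul (((hpc 1).pow (a 0)).mul ((hpc 2).pow (a 1)))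
      refine h5.congr ?_
      have h6 : (n : ℤ) = a 0 + a 1 + 3 * j := by
        rw [← ha3]
        push_cast
        ring
      rw [h6]
      ring
    exact (h1.mul (hwc.pow j)).congr (by ring)
  refine ⟨fun j a => hPs j a, fun j a hja => ?_⟩
  have hWC := pf_PWC F m u (grd dd G) G (hes dd G) (aeval u J) n V hV.1 j
  have hjn : 3 * j ≤ n := by
    by_contra hlt
    apply hja
    show ((Psi m u (grd dd G) G (hes dd G) (aeval u J) V).coeff j).coeff a = 0
    rw [hWC.2 (by omega), coeff_zero]
  have h1 := hWC.1 hjn hja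
  have h5 : a.degree = n - 3 * j := by
    rw [Finsupp.degree_eq_weight_one]
    exact h1
  have h4 : a.degree = a 0 + a 1 + a 2 := by
    rw [Finsupp.degree_eq_sum, Fin.sum_univ_three]
  omega

end Pool.Agent.H92.S2.DEG
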