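import Pool.Agent.H92.S2.LUT2
import Pool.Agent.H62.HIL.Tg

/-!
# MP_70ba79_ag, THEOREM S, row FRK: the field of the pencil
-/

set_option autoImplicit false

namespace Pool.Agent.H92.S2.FRK

open MvPolynomial
open Pool.Agent.H84.SM (dp cr dt)
open Pool.Agent.H3.SF Pool.Agent.H3.S2 Pool.Agent.H92.SF Pool.Agent.H92.S2

private theorem eu_u {k F : Type} [Field k] [Field F] [Algebra k F] (u : Fin 3 → F)
    (dd : Fin 3 → Derivation k F F) (du : ∀ l j, dd l (u j) = if l = j then 1 else 0) (j : Fin 3) :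
    eu u dd (u j) = u j := by
  unfold eu
  rw [Fin.sum_univ_three]
  simp only [Derivation.add_apply, Derivation.smul_apply, du, smul_eq_mul]
  fin_cases j <;> simp

private theorem trans_div {k F : Type} [Field k] [Field F] [Algebra k F] (u : Fin 3 → F)
    (hu : AlgebraicIndependent k u) (h0 : u 0 ≠ 0) : Transcendental k (u 1 / u 0) := by
  rw [transcendental_iff]
  intro P hP
  have h1 : Function.Injective (aeval u : MvPolynomial (Fin 3) k →ₐ[k] F) := hu
  obtain ⟨N, hN⟩ : ∃ N, N = P.natDegree := ⟨_, rfl⟩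
  have h2 : aeval u (∑ i ∈ Finset.range (N + 1), C (P.coeff i) * X 1 ^ i * X 0 ^ (N - i) :
      MvPolynomial (Fin 3) k) = 0 := by
    have h3 : u 0 ^ N * Polynomial.aeval (u 1 / u 0) P = 0 := by rw [hP, mul_zero]
    rw [Polynomial.aeval_eq_sum_range, ← hN, Finset.mul_sum] at h3
    rw [map_sum, ← h3]
    refine Finset.sum_congr rfl fun i hi => ?_
    rw [Finset.mem_range] at hi
    have h4 : u 0 ^ N = u 0 ^ i * u 0 ^ (N - i) := by
      rw [← pow_add]
      congr 1
      omega
    rw [map_mul, map_mul, map_pow, map_pow, aeval_X, aeval_X, aeval_C, Algebra.smul_def, h4,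
      div_pow]
    field_simp
  have h5 : (∑ i ∈ Finset.range (N + 1), C (P.coeff i) * X 1 ^ i * X 0 ^ (N - i) :
      MvPolynomial (Fin 3) k) = 0 := h1 (by rw [h2, map_zero])
  have h6 := congrArg (aeval (![1, Polynomial.X, 0] : Fin 3 → Polynomial k)) h5
  rw [map_zero, map_sum] at h6
  rw [Polynomial.as_sum_range_C_mul_X_pow P, ← hN, ← h6]
  refine Finset.sum_congr rfl fun i _ => ?_
  simp [Polynomial.C_eq_algebraMap]

theorem pf_FRK2 (hPEN : Pool.Agent.H62.HIL.T_PEN) (hDAT : T_DAT2) : T_FRK2 := by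
  intro k F _ _ _ _ _ u dd δ j0 c0 J m G hB
  have hu0 : ∀ i, u i ≠ 0 := (hDAT k F u dd δ j0 c0 J m G hB).2.1
  have hHd : Hd k u (eu u dd) δ := ⟨hB.ind, hB.rank, hB.pos, eu_u u dd hB.du⟩
  obtain ⟨⟨E', hE', hHd'⟩, hitg⟩ := hPEN k F δ u (eu u dd) hHd
  refine ⟨hHd'.ind, hHd'.deg, ?_, hitg, ?_, trans_div u hB.ind (hu0 0)⟩
  · intro c hc
    rw [← hE']
    exact E'.map_algebraMap (⟨c, hc⟩ : kap k u)
  · have hkap : kap k u ≤ kF k u := by
      rw [IntermediateField.adjoin_le_iff, Set.singleton_subset_iff]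
      exact (kF k u).div_mem (IntermediateField.subset_adjoin k _ ⟨1, rfl⟩)
        (IntermediateField.subset_adjoin k _ ⟨0, rfl⟩)
    intro a
    constructor
    · intro ha
      induction ha using IntermediateField.adjoin_induction with
      | mem x hx =>
        obtain ⟨i, rfl⟩ := hx
        fin_cases i
        · exact IntermediateField.subset_adjoin k _ ⟨0, rfl⟩
        · exact IntermediateField.subset_adjoin k _ ⟨2, rfl⟩
      | algebraMap c => exact hkap c.2
      | add x y _ _ hx hy => exact (kF k u).add_mem hx hy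
      | inv x _ hx => exact (kF k u).inv_mem hx
      | mul x y _ _ hx hy => exact (kF k u).mul_mem hx hy
    · have hle : kF k u ≤ (kF (kap k u) ![u 0, u 2]).restrictScalars k := by
        rw [IntermediateField.adjoin_le_iff]
        rintro _ ⟨i, rfl⟩
        have m0 : u 0 ∈ kF (kap k u) ![u 0, u 2] := IntermediateField.subset_adjoin _ _ ⟨0, rfl⟩
        have m2 : u 2 ∈ kF (kap k u) ![u 0, u 2] := IntermediateField.subset_adjoin _ _ ⟨1, rfl⟩
        have m1 : u 1 ∈ kF (kap k u) ![u 0, u 2] := by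
          have h1 : u 1 / u 0 ∈ kF (kap k u) ![u 0, u 2] :=
            (kF (kap k u) ![u 0, u 2]).algebraMap_mem
              (⟨u 1 / u 0, IntermediateField.subset_adjoin k _ rfl⟩ : kap k u)
          have h2 : u 1 = u 1 / u 0 * u 0 := by
            field_simp [hu0 0]
          rw [h2]
          exact (kF (kap k u) ![u 0, u 2]).mul_mem h1 m0
        fin_cases i
        · exact m0
        · exact m1
        · exact m2
      intro ha
      exact hle ha

end Pool.Agent.H92.S2.FRK
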