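import Pool.Agent.H92.S2.LUT2
import Pool.Agent.H62.HIL.VRI

/-! Module HIV: homogeneous integral elements and valuation rings. -/

set_option autoImplicit false

namespace Pool.Agent.H92.S2.HIV

open MvPolynomial
open Pool.Agent.H84.SM (dp cr dt)
open Pool.Agent.H3.SF Pool.Agent.H3.S2 Pool.Agent.H92.SF Pool.Agent.H92.S2

theorem aeval_scale {σ k F : Type} [Field k] [Field F] [Algebra k F] (x : σ → F) (c : F)
    (A : MvPolynomial σ k) (e : ℕ) (hA : A.IsHomogeneous e) :
    aeval (fun j => c * x j) A = c ^ e * aeval x A := by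
  rw [aeval_def, aeval_def, eval₂_eq, eval₂_eq, Finset.mul_sum]
  refine Finset.sum_congr rfl fun m hm => ?_
  have h1 : ∑ i ∈ m.support, m i = e := by
    have h := hA (mem_support_iff.1 hm)
    rw [← Finsupp.degree_apply, Finsupp.degree_eq_weight_one]
    exact h
  simp only [mul_pow]
  rw [Finset.prod_mul_distrib, Finset.prod_pow_eq_pow_sum, h1]
  ring

theorem pf_HIV2 (hHMR : T_HMR) (hDAT : T_DAT2) : T_HIV2 := by
  intro k F _ _ _ _ _ u dd δ j0 c0 J m G hB V hk i hu e z hz he
  obtain ⟨-, hu0, -, -, hE1, -⟩ := hDAT k F u dd δ j0 c0 J m G hB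
  rcases lt_or_ge e 0 with h0 | h0
  · have h1 : z ∈ BB k u (eu u dd) e := ⟨hz, he⟩
    rw [hB.neg e h0, Submodule.mem_bot] at h1
    rw [h1, zero_div]
    exact V.zero_mem
  obtain ⟨s, rfl⟩ := Int.eq_ofNat_of_zero_le h0
  obtain ⟨N, A, hN, hA, hrel⟩ := hHMR k F (Fin 3) u (eu u dd) 1 s z le_rfl
    (fun j => by
      have h := hE1 j
      unfold Hm at h
      rw [h]
      push_cast
      ring)
    (by
      unfold Hm at he
      rw [he]
      push_cast
      ring) hz
  have hui : u i ≠ 0 := hu0 i
  rw [zpow_natCast]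
  have hitg : Pool.Agent.H62.HIL.Itg k (fun j => u j / u i) (z / u i ^ s) := by
    refine Pool.Agent.H62.HIL.itg_of_relation N (fun r => aeval (fun j => u j / u i) (A r))
      (fun r _ => ?_) ?_
    · have h1 : aeval (fun j => u j / u i) (A r) ∈
          Algebra.adjoin k (Set.range fun j => u j / u i) := by
        rw [Algebra.adjoin_range_eq_range_aeval]
        exact ⟨A r, rfl⟩
      exact isIntegral_algebraMap (R := Algebra.adjoin k (Set.range fun j => u j / u i))
        (x := ⟨_, h1⟩)
    · have h2 : (z / u i ^ s) ^ N + ∑ r ∈ Finset.range N,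
          aeval (fun j => u j / u i) (A r) * (z / u i ^ s) ^ r =
          (z ^ N + ∑ r ∈ Finset.range N, aeval u (A r) * z ^ r) * ((u i)⁻¹) ^ (s * N) := by
        rw [add_mul, Finset.sum_mul]
        congr 1
        · rw [div_pow, ← pow_mul, inv_pow, div_eq_mul_inv]
        · refine Finset.sum_congr rfl fun r hr => ?_
          have hrN := Finset.mem_range.1 hr
          have h3 : (fun j => u j / u i) = fun j => (u i)⁻¹ * u j := by
            funext j
            rw [div_eq_inv_mul]
          rw [h3, aeval_scale u (u i)⁻¹ (A r) _ (hA r hrN), div_pow, ← pow_mul,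
            div_eq_mul_inv, ← inv_pow]
          have h4 : s * N = s * (N - r) + s * r := by
            rw [← Nat.mul_add, Nat.sub_add_cancel hrN.le]
          rw [h4, pow_add]
          ring
      rw [h2, hrel, zero_mul]
  refine Pool.Agent.H62.HIL.mem_of_itg hitg V fun x hx => ?_
  induction hx using Algebra.adjoin_induction with
  | mem x hx =>
    obtain ⟨j, rfl⟩ := hx
    exact hu j
  | algebraMap r => exact hk r
  | add x y _ _ hx hy => exact V.add_mem _ _ hx hy
  | mul x y _ _ hx hy => exact V.mul_mem _ _ hx hy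

end Pool.Agent.H92.S2.HIV
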