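import Pool.Agent.H92.S2.LUT2
import Pool.Agent.H3.SF.Tg1
import Pool.Agent.H62.HIL.Tg

/-!
# Board `sfu_modules`, row LMG: dimension of spaces of integral elements, with gain
-/

set_option autoImplicit false

namespace Pool.Agent.H92.S2.LMG

open MvPolynomial
open Pool.Agent.H84.SM (dp cr dt)
open Pool.Agent.H3.SF Pool.Agent.H3.S2 Pool.Agent.H92.SF Pool.Agent.H92.S2

theorem lmg_eval {k : Type} [Field k] (h : ℕ) (H : MvPolynomial (Fin 3) k)
    (hH : H.IsHomogeneous h) : eval ![0, 0, 1] H = H.coeff (Finsupp.single 2 h) := by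
  classical
  rw [eval_eq']
  have h1 : ∀ d ∈ H.support, d ≠ Finsupp.single 2 h →
      coeff d H * ∏ i, (![0, 0, 1] : Fin 3 → k) i ^ d i = 0 := by
    intro d hd hne
    rw [Fin.prod_univ_three]
    simp only [Matrix.cons_val_zero, Matrix.cons_val_one, Matrix.cons_val]
    by_cases h0 : d 0 = 0
    · by_cases h1 : d 1 = 0
      · exfalso
        apply hne
        have h2 := hH (mem_support_iff.1 hd)
        rw [Finsupp.weight_apply, Finsupp.sum_fintype _ _ (by simp), Fin.sum_univ_three, h0, h1]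
          at h2
        simp only [Pi.one_apply, smul_eq_mul, zero_add, mul_one] at h2
        ext i
        fin_cases i
        · simpa using h0
        · simpa using h1
        · simpa using h2
      · rw [zero_pow h1]; ring
    · rw [zero_pow h0]; ring
  by_cases h2 : Finsupp.single 2 h ∈ H.support
  · rw [Finset.sum_eq_single_of_mem _ h2 h1, Fin.prod_univ_three]
    simp
  · rw [Finset.sum_eq_zero fun d hd => h1 d hd fun h => h2 (h ▸ hd)]
    exact (notMem_support_iff.1 h2).symm

theorem lmg_sp_ne {k L : Type} [Field k] [Field L] [Algebra k L] (t : L) (h : ℕ)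
    (H : MvPolynomial (Fin 3) k) (hH : H.IsHomogeneous h)
    (hc : H.coeff (Finsupp.single 2 h) ≠ 0) : sp t H ≠ 0 := by
  intro h0
  have h1 : eval ![0, 1] (sp t H) = algebraMap k L (eval ![0, 0, 1] H) := by
    have h2 : ((aeval ![0, 1] : MvPolynomial (Fin 2) L →ₐ[L] L).restrictScalars k).comp (sp t) =
        (Algebra.ofId k L).comp (aeval ![0, 0, 1]) := by
      apply MvPolynomial.algHom_ext
      intro i
      fin_cases i <;> simp [sp]
    have h3 := DFunLike.congr_fun h2 H
    rw [← coe_aeval_eq_eval, ← coe_aeval_eq_eval]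
    exact h3
  rw [h0, map_zero, lmg_eval h H hH] at h1
  exact hc ((map_eq_zero _).1 h1.symm)

theorem lmg_sp_hom {k L : Type} [Field k] [Field L] [Algebra k L] (t : L) (h : ℕ)
    (H : MvPolynomial (Fin 3) k) (hH : H.IsHomogeneous h) : (sp t H).IsHomogeneous h := by
  have h1 := hH.eval₂ (algebraMap k (MvPolynomial (Fin 2) L)) ![X 0, C t * X 0, X 1]
    (n := 1) (fun r => by
      rw [IsScalarTower.algebraMap_apply k L, algebraMap_eq]
      exact isHomogeneous_C _ _)
    (fun i => by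
      fin_cases i
      · exact isHomogeneous_X _ _
      · simpa using (isHomogeneous_C (Fin 2) t).mul (isHomogeneous_X L (0 : Fin 2))
      · exact isHomogeneous_X _ _)
  rw [one_mul] at h1
  exact h1

theorem lmg_sp_aeval {k F : Type} [Field k] [Field F] [Algebra k F] (κ : IntermediateField k F)
    (u : Fin 3 → F) (h0 : u 0 ≠ 0) (t : κ) (ht : (t : F) = u 1 / u 0)
    (H : MvPolynomial (Fin 3) k) : aeval u H = aeval (R := κ) ![u 0, u 2] (sp t H) := by
  have h2 : ((aeval ![u 0, u 2] : MvPolynomial (Fin 2) κ →ₐ[κ] F).restrictScalars k).comp (sp t) =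
      aeval u := by
    apply MvPolynomial.algHom_ext
    intro i
    have h1 : algebraMap κ F t = u 1 / u 0 := ht
    fin_cases i
    · simp [sp]
    · simp [sp, h1, div_mul_cancel₀ _ h0]
    · simp [sp]
  exact (DFunLike.congr_fun h2 H).symm

theorem pf_LMG2 (hLMH : Pool.Agent.H3.SF.T_LMH) (hNRM : Pool.Agent.H3.SF.T_NRM)
    (hNGD : Pool.Agent.H3.SF.T_NGD) (hPEN : Pool.Agent.H62.HIL.T_PEN) (hFRK : T_FRK2)
    (hDAT : T_DAT2) (hCPC : T_CPC) : T_LMG2 := by
  intro k F _ _ _ _ _ u dd δ j0 c0 J m G hBs ω h H A hH hc hrp hω i e W hW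
  obtain ⟨-, hu, -⟩ := hDAT k F u dd δ j0 c0 J m G hBs
  obtain ⟨-, -, -, -, hiff, htr⟩ := hFRK k F u dd δ j0 c0 J m G hBs
  have : CharZero F := charZero_of_injective_algebraMap (algebraMap k F).injective
  have : CharZero (kap k u) :=
    charZero_of_injective_algebraMap (algebraMap k (kap k u)).injective
  have hHd : Hd k u (eu u dd) δ := by
    refine ⟨hBs.ind, hBs.rank, hBs.pos, fun i => ?_⟩
    have h1 : eu u dd (u i) = ∑ l, u l * dd l (u i) := by
      simp only [eu, Fin.sum_univ_three]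
      rfl
    rw [h1]
    simp [hBs.du]
  obtain ⟨⟨E', hE', hHd'⟩, -⟩ := hPEN k F δ u (eu u dd) hHd
  -- the norms
  obtain ⟨eq, heq⟩ : ∃ eq : kF (kap k u) ![u 0, u 2] ≃+* kF k u, ∀ a, (eq a : F) = (a : F) := by
    refine ⟨{ toFun := fun a => ⟨a.1, (hiff a.1).1 a.2⟩
              invFun := fun a => ⟨a.1, (hiff a.1).2 a.2⟩
              left_inv := fun a => rfl
              right_inv := fun a => rfl
              map_mul' := fun a b => rfl
              map_add' := fun a b => rfl }, fun a => rfl⟩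
  have hnorm : ∀ z : F, ((Algebra.norm (kF (kap k u) ![u 0, u 2]) z :
      kF (kap k u) ![u 0, u 2]) : F) = ((Algebra.norm (kF k u) z : kF k u) : F) := by
    intro z
    rw [← heq, Algebra.norm_eq_of_ringEquiv eq (RingHom.ext fun a => heq a) z]
  obtain ⟨t, ht⟩ : ∃ t : kap k u, (t : F) = u 1 / u 0 :=
    ⟨⟨_, IntermediateField.mem_adjoin_simple_self k _⟩, rfl⟩
  have htr' : Transcendental k t := by
    intro h1
    apply htr
    rw [← ht]
    exact h1.algebraMap
  have hrp' := hCPC k (kap k u) t htr' h A H hH hc hrp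
  have hH0 := lmg_sp_ne t h H hH hc
  have hHh := lmg_sp_hom t h H hH
  have hHm : ∀ x ∈ W, Hm (kap k u) E' e x := fun x hx => by
    have h1 := (hW x hx).1
    unfold Hm at *
    rw [hE', h1]
  rcases lt_or_ge e 0 with he | he
  · have h1 : W = ⊥ := by
      rw [Submodule.eq_bot_iff]
      intro x hx
      exact (hNGD (kap k u) F 2 δ ![u 0, u 2] E' hHd').1 e x he (hW x hx).2.1 (hHm x hx)
    subst h1
    refine ⟨inferInstance, ?_⟩
    rw [finrank_bot]
    exact le_max_left _ _
  · obtain ⟨e', rfl⟩ := Int.eq_ofNat_of_zero_le he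
    have h2 : ∀ s ∈ W, ∃ q : MvPolynomial (Fin 2) (kap k u),
        ((Algebra.norm (kF (kap k u) ![u 0, u 2]) s : kF (kap k u) ![u 0, u 2]) : F) =
          aeval (R := kap k u) ![u 0, u 2] ((sp t H) ^ i * q) := by
      intro s hs
      obtain ⟨N, -, hN, -⟩ :=
        (hNGD (kap k u) F 2 δ ![u 0, u 2] E' hHd').2 e' s (hW s hs).2.1 (hHm s hs)
      obtain ⟨q, hq⟩ := hNRM (kap k u) F 2 δ ![u 0, u 2] E' hHd' i s ω (sp t A) (sp t H) N
        (hW s hs).2.2 (by
          rw [hnorm, ← lmg_sp_aeval _ u (hu 0) t ht, ← lmg_sp_aeval _ u (hu 0) t ht, hω]) hrp' hN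
      exact ⟨q, by rw [hN, hq]⟩
    obtain ⟨h3, h4⟩ := hLMH (kap k u) F δ ![u 0, u 2] E' hHd' e' W
      (fun x hx => ⟨(hW x hx).2.1, hHm x hx⟩) (h * i) ((sp t H) ^ i) (hHh.pow i)
      (pow_ne_zero _ hH0) h2
    refine ⟨h3, ?_⟩
    by_cases h5 : W = ⊥
    · subst h5
      rw [finrank_bot]
      exact le_max_left _ _
    · refine le_trans ?_ (le_max_right _ _)
      have h6 := h4 h5
      push_cast at h6
      have h7 : (h : ℤ) * i = i * h := mul_comm _ _
      omega

end Pool.Agent.H92.S2.LMG
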