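import Pool.Agent.H92.S2.LUT2
import Pool.Agent.H92.SF.LUA
import Pool.Agent.H3.SF.Tg1

/-!
# MP_70ba79_ag, THEOREM S, part 2: assembly of T_NG2, T_MF2, T_MT2
-/

set_option autoImplicit false

namespace Pool.Agent.H92.S2

open MvPolynomial
open Pool.Agent.H84.SM (dp cr dt)
open Pool.Agent.H3.SF Pool.Agent.H3.S2 Pool.Agent.H92.SF

theorem pf_LOV2 (hLNU : T_LNU2) (hLON : T_LON2) (hLTW : T_LTW2) : T_LOV2 := by
  intro δ j0 c0 q hq
  obtain ⟨N1, h1⟩ := hLNU δ j0 c0 q hq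
  refine ⟨N1 + 1, ?_⟩
  intro k F _ _ _ _ _ u dd J m G sg S hm hG hC
  rw [add_mul, one_mul] at hm
  obtain ⟨c1, c2, h2⟩ := hLON k F u dd δ j0 c0 J m G hG.toBw sg S hC (by omega)
  obtain ⟨n1, h3⟩ := h1 m sg c1 c2 (by omega)
  refine ⟨n1, fun n hn => ?_⟩
  refine h3 (fun t => Module.finrank k (BB k u (eu u dd) t))
    (fun τ => Module.finrank k (E u dd J m G n τ)) n hn ?_ hG.up hG.lo (fun τ hτ => h2 n τ hτ)
    (fun τ => hLTW k F u dd δ j0 c0 J m G hG n τ)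
  intro t ht
  rw [hG.neg t ht]
  exact finrank_bot k F

section TR

variable {k F : Type} [Field k] [IsAlgClosed k] [CharZero k] [Field F] [Algebra k F]

/-- transport of `Mls` -/
theorem mls_tr (hTRY : T_TRY2) {u : Fin 3 → F} {dd : Fin 3 → Derivation k F F} {δ j0 c0 : ℕ}
    {J : MvPolynomial (Fin 3) k} {m : ℕ} {G : F} (h : Bw u dd δ j0 c0 J m G) (a b : k) (sg n : ℕ)
    (P : Q2 F) (hP : Mls u dd J j0 m sg G n (Tch a b u P)) :
    Mls (uch a b u) (dch a b dd) (sch a b J) j0 m sg G n P := by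
  obtain ⟨t1, t2, t3, t4, t5, t6, t7, t8⟩ := hTRY k F u dd δ j0 c0 J m G h a b
  intro t r V hV hr
  have h1 := hP t r _ ((t5 n _ V).mp hV) hr
  obtain ⟨W, hW⟩ := h1
  obtain ⟨W', rfl⟩ := t1.2 W
  refine ⟨W', t1.1 ?_⟩
  rw [hW, map_mul, map_pow]

end TR

theorem thr {N1 N2 j0 sg m : ℕ} (h : (N1 + N2 * (2 * j0 + 2) + (j0 + 4)) * (sg + 1) ≤ m) :
    N1 * (sg + 1) ≤ m ∧ N2 * (2 * (j0 + sg) + 1) ≤ m ∧ j0 + 4 ≤ m := by
  have h1 : N2 * (2 * (j0 + sg) + 1) ≤ N2 * (2 * j0 + 2) * (sg + 1) := by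
    rw [mul_assoc]
    refine Nat.mul_le_mul_left _ ?_
    have : 0 ≤ 2 * j0 * sg := Nat.zero_le _
    nlinarith
  have h2 : j0 + 4 ≤ (j0 + 4) * (sg + 1) := Nat.le_mul_of_pos_right _ (Nat.succ_pos _)
  rw [add_mul, add_mul] at h
  generalize N1 * (sg + 1) = x1 at *
  generalize N2 * (2 * j0 + 2) * (sg + 1) = x2 at *
  generalize N2 * (2 * (j0 + sg) + 1) = x3 at *
  generalize (j0 + 4) * (sg + 1) = x4 at *
  omega

theorem pf_NG2 (hLOV : T_LOV2) (hNUN : T_NUN2) (hUPN : T_UPN2) (hTRY : T_TRY2) (hPEN : T_PEN2) :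
    T_NG2 := by
  intro δ j0 c0
  by_cases hδ : 1 ≤ δ
  swap
  · refine ⟨0, ?_⟩
    intro k F _ _ _ _ _ u dd J hS m G sg S _ _
    exact absurd hS.pos hδ
  obtain ⟨m1, h1⟩ := hLOV δ j0 c0 2 (by norm_num)
  obtain ⟨m2, h2⟩ := hNUN δ hδ
  refine ⟨m1 + m2 * (2 * j0 + 2) + (j0 + 4), ?_⟩
  intro k F _ _ _ _ _ u dd J hS m G sg S hm hC
  obtain ⟨hm1, hm2, hm3⟩ := thr hm
  have hB := Bw.of hS hC hm3
  obtain ⟨a, b, hG, hC', -⟩ := hPEN k F u dd δ j0 c0 J m G hS hm3 sg S hC 0 1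
    (isHomogeneous_one _ _) one_ne_zero
  obtain ⟨n1, h3⟩ := h1 k F _ _ _ m G sg _ hm1 hG hC'
  obtain ⟨n2, h4⟩ := h2 _ m hm2
  obtain ⟨t1, t2, t3, t4, t5, t6, t7, t8⟩ := hTRY k F u dd δ j0 c0 J m G hB a b
  by_contra hcon
  push Not at hcon
  have hn1 : n1 ≤ max n1 (max n2 1) := le_max_left _ _
  have hn2 : n2 ≤ max n1 (max n2 1) := le_trans (le_max_left _ _) (le_max_right _ _)
  have hn3 : 1 ≤ max n1 (max n2 1) := le_trans (le_max_right _ _) (le_max_right _ _)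
  generalize max n1 (max n2 1) = n at hn1 hn2 hn3
  have h5 := h3 n hn1
  have h6 := h4 n hn2
  have h7 := hUPN k F _ _ δ j0 c0 _ m G hG n (2 * (j0 + sg)) (by omega) (by
    intro V hV
    by_contra hne
    refine hcon n (2 * n * (2 * (j0 + sg)) + 1) (Tch a b u V) (by nlinarith) ?_ ?_
    · intro h0
      apply hne
      apply t1.1
      rw [h0, map_zero]
    · exact (t5 n _ V).mp hV)
  have h8 := X_pos hδ (by omega : 1 ≤ m) hn3
  push_cast at h5 h6 h7
  linarith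

theorem pf_MF2 (hLOV : T_LOV2) (hNUF : T_NUF2) (hUPG : T_UPG2) (hTRY : T_TRY2) (hPEN : T_PEN2)
    (hLMG : T_LMG2) (hCTP : T_CTP2) : T_MF2 := by
  intro δ j0 c0
  by_cases hδ : 1 ≤ δ
  swap
  · refine ⟨0, ?_⟩
    intro k F _ _ _ _ _ u dd J hS m G sg S _ _
    exact absurd hS.pos hδ
  obtain ⟨m1, h1⟩ := hLOV δ j0 c0 40 (by norm_num)
  obtain ⟨m2, h2⟩ := hNUF δ hδ
  refine ⟨m1 + m2 * (2 * j0 + 2) + (j0 + 4), ?_⟩
  intro k F _ _ _ _ _ u dd J hS m G sg S hm hC w τ P hw hP hdeg hTw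
  obtain ⟨hm1, hm2, hm3⟩ := thr hm
  have hB := Bw.of hS hC hm3
  obtain ⟨a, b, hG, hC', -⟩ := hPEN k F u dd δ j0 c0 J m G hS hm3 sg S hC 0 1
    (isHomogeneous_one _ _) one_ne_zero
  obtain ⟨t1, t2, t3, t4, t5, t6, t7, t8⟩ := hTRY k F u dd δ j0 c0 J m G hB a b
  obtain ⟨P', rfl⟩ := t1.2 P
  have hP' : P' ≠ 0 := by
    rintro rfl
    exact hP (map_zero _)
  rw [t6] at hdeg
  have hTw' := (t4 w τ P').mpr hTw
  have h3d := three_le hP' hTw'.1
  obtain ⟨a0, ha0⟩ := hCTP k F _ _ δ j0 c0 _ m G hG.toBw P' hP'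
  obtain ⟨n1, h3⟩ := h1 k F _ _ _ m G sg _ hm1 hG hC'
  obtain ⟨n2, h4⟩ := h2 _ m w P'.natDegree hm2 hw hdeg h3d
  by_contra hcon
  push Not at hcon
  have hn1 : n1 ≤ max n1 (max n2 1) := le_max_left _ _
  have hn2 : n2 ≤ max n1 (max n2 1) := le_trans (le_max_left _ _) (le_max_right _ _)
  have hn3 : 1 ≤ max n1 (max n2 1) := le_trans (le_max_right _ _) (le_max_right _ _)
  generalize max n1 (max n2 1) = n at hn1 hn2 hn3
  have h5 := h3 n hn1
  have h6 := h4 n hn2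
  have h7 := hUPG k F _ _ δ j0 c0 _ m G hG w τ P' hP' (by omega) h3d hTw' a0 ha0 0 (by
    intro i e W hW
    have h9 := hLMG k F _ _ δ j0 c0 _ m G hG.toBw 1 0 1 1 (isHomogeneous_one _ _)
      (by simp) isRelPrime_one_left (by simp) i e W (fun x hx => ⟨(hW x hx).1, (hW x hx).2.1, by
        rw [one_pow, mul_one]
        exact (hW x hx).2.1⟩)
    exact h9) n sg _ le_rfl (mls_tr hTRY hB a b sg n P' (hcon n hn3))
  have h8 := X_pos hδ (by omega : 1 ≤ m) hn3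
  push_cast at h5 h6 h7
  linarith

theorem pf_MT2 (hLOV : T_LOV2) (hNUT : T_NUT2) (hUPG : T_UPG2) (hTRX : T_TRX2) (hTRY : T_TRY2)
    (hPEN : T_PEN2) (hLMG : T_LMG2) (hFRK : T_FRK2) (hDEG : T_DEG2)
    (hDEN : Pool.Agent.H3.SF.T_DEN) (hSF1 : Pool.Agent.H3.SF.T_SF1) : T_MT2 := by
  intro δ j0 c0 q hq
  by_cases hδ : 1 ≤ δ
  swap
  · refine ⟨0, ?_⟩
    intro k F _ _ _ _ _ u dd J hS m G sg S _ _
    exact absurd hS.pos hδ
  obtain ⟨m1, h1⟩ := hLOV δ j0 c0 (100 * δ * q) (by nlinarith [Nat.mul_le_mul hδ hq])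
  obtain ⟨m2, h2⟩ := hNUT δ q hδ hq
  refine ⟨m1 + m2 * (2 * j0 + 2) + (j0 + 4), ?_⟩
  intro k F _ _ _ _ _ u dd J hS m G sg S hm hC P hP1 hTw hex
  obtain ⟨hm1, hm2, hm3⟩ := thr hm
  have hB := Bw.of hS hC hm3
  have : CharZero F := charZero_of_injective_algebraMap (algebraMap k F).injective
  have hmF : (m : F) ≠ 0 := by
    exact_mod_cast (by omega : m ≠ 0)
  obtain ⟨j, a1, hbad⟩ := hex
  change ∀ (h : ℕ) (H : MvPolynomial (Fin 3) k), q * h < m → H.IsHomogeneous h → H ≠ 0 →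
    ¬ Itg k u (aeval u H * (cf u dd J m G P j a1 / G)) at hbad
  obtain ⟨e1, e2, e3⟩ := cf_one u dd J m G P hP1 hTw.1
  have hj : j = 0 := by
    by_contra hj
    refine hbad 0 1 (by omega) (isHomogeneous_one _ _) one_ne_zero ?_
    rw [map_one, one_mul]
    by_cases hj1 : j = 1
    · subst hj1
      by_cases ha : a1 = 0
      · subst ha
        rw [e1, mul_div_assoc, div_self hB.ne, mul_one]
        simpa using itg_alg (k := k) u (m : k)
      · rw [e2 a1 ha, zero_div]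
        exact (Bb k u).zero_mem
    · rw [e3 j a1 (by omega), zero_div]
      exact (Bb k u).zero_mem
  subst hj
  set γ : F := cf u dd J m G P 0 a1 / (m * G) with hγ
  have hGm : (m : F) * G ≠ 0 := mul_ne_zero hmF hB.ne
  have hγd : Hm k (eu u dd) ((2 * m + 6 * j0 - 3 : ℕ) : ℤ) γ := by
    have h3 := (hDEG k F u dd δ j0 c0 J m G hB 3 3 P hTw).1 0 a1
    have h4 := hB.hom
    have h5 : (((2 * m + 6 * j0 - 3 : ℕ) : ℤ)) = 2 * m + 6 * j0 - 3 := by omega
    have h6 : eu u dd ((m : F) * G) = (m : F) * ((m : F) * G) := by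
      have h7 : (m : F) * G = (m : k) • G := by
        rw [Algebra.smul_def, map_natCast]
      rw [h7, Derivation.map_smul]
      unfold Hm at h4
      rw [h4, mul_smul_comm]
      push_cast
      rfl
    have h8 : cf u dd J m G P 0 a1 = γ * (m * G) := by
      rw [hγ, div_mul_cancel₀ _ hGm]
    unfold Hm at h3 ⊢
    rw [h8, Derivation.leibniz, h6, smul_eq_mul, smul_eq_mul] at h3
    rw [h5]
    apply mul_right_cancel₀ hGm
    push_cast at h3 ⊢
    linear_combination h3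
  obtain ⟨h, a', H, A, f, hH0, hHh, hHγ, hf, hA0, hAh, hrel, hnorm⟩ :=
    hDEN k F 3 δ u (eu u dd) (hSF1 k F u dd δ j0 c0 J hS).1 (by norm_num) _ γ hγd
  have hgain : m ≤ q * h := by
    by_contra hcon
    push Not at hcon
    refine hbad h H hcon hHh hH0 ?_
    have h3 : aeval u H * (cf u dd J m G P 0 a1 / G) = algebraMap k F m * (aeval u H * γ) := by
      rw [hγ, map_natCast]
      have := hB.ne
      field_simp
    rw [h3]
    exact (Bb k u).mul_mem (itg_alg u _) hHγ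
  obtain ⟨a, b, hG, hC', hHc⟩ := hPEN k F u dd δ j0 c0 J m G hS hm3 sg S hC h H hHh hH0
  obtain ⟨x1, -, x2, x3, x4, x5⟩ := hTRX k F u dd δ j0 c0 J m G hB a b
  obtain ⟨t1, t2, t3, t4, t5, t6, t7, t8⟩ := hTRY k F u dd δ j0 c0 J m G hB a b
  obtain ⟨f1, f2, f3, f4, f5, f6⟩ := hFRK k F _ _ δ j0 c0 _ m G hG.toBw
  obtain ⟨P', rfl⟩ := t1.2 P
  have hP1' := (t7 P').mp hP1
  have hTw' := (t4 3 3 P').mpr hTw
  have hP' : P' ≠ 0 := by
    rintro rfl
    simp at hP1'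
  have h3d := three_le hP' hTw'.1
  have hdeg : P'.natDegree = 1 := by
    have h3 : 1 ≤ P'.natDegree := Polynomial.le_natDegree_of_ne_zero (by rw [hP1']; exact one_ne_zero)
    omega
  obtain ⟨g1, g2, g3⟩ := cf_one (uch a b u) (dch a b dd) (sch a b J) m G P' hP1' hTw'.1
  obtain ⟨n1, h3⟩ := h1 k F _ _ _ m G sg _ hm1 hG hC'
  obtain ⟨n2, h4⟩ := h2 _ m h hm2 hgain
  by_contra hcon
  push Not at hcon
  have hn1 : n1 ≤ max n1 (max n2 1) := le_max_left _ _
  have hn2 : n2 ≤ max n1 (max n2 1) := le_trans (le_max_left _ _) (le_max_right _ _)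
  have hn3 : 1 ≤ max n1 (max n2 1) := le_trans (le_max_right _ _) (le_max_right _ _)
  generalize max n1 (max n2 1) = n at hn1 hn2 hn3
  have h5 := h3 n hn1
  have h6 := h4 n hn2
  have ha0 : cf (uch a b u) (dch a b dd) (sch a b J) m G P' P'.natDegree 0 ≠ 0 := by
    rw [hdeg, g1]
    exact hGm
  have h7 := hUPG k F _ _ δ j0 c0 _ m G hG 3 3 P' hP' (by norm_num) h3d hTw' 0 ha0 h (by
    intro i e W hW
    refine hLMG k F _ _ δ j0 c0 _ m G hG.toBw (aeval u f + γ) h (sch a b H) (sch a b A)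
      (sch_hom a b hHh) hHc (sch_rel a b hrel) ?_ i e W ?_
    · rw [x4, x4, norm_eq_of_eq x3]
      exact hnorm
    · intro x hx
      obtain ⟨w1, w2, w3⟩ := hW x hx
      refine ⟨w1, w2, ?_⟩
      have y1 : ItK k (uch a b u) (aeval u f) := f4 _ ((x2 _).mpr (itg_aev u f))
      have y2 : ItK k (uch a b u) (x * aeval u f ^ i) :=
        RingHom.IsIntegralElem.mul _ w2 ((Bb (kap k (uch a b u)) ![uch a b u 0, uch a b u 2]).pow_mem y1 i)
      have y3 : ItK k (uch a b u) (x * γ ^ i) := by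
        refine pow_comb (κ := k) _ (fun c => ?_) (x := x) (i := i)
          (fun a'' => cf (uch a b u) (dch a b dd) (sch a b J) m G P' 0 a'' / (m * G)) w2 ?_ ?_
        · exact itg_alg (k := kap k (uch a b u)) _ (algebraMap k _ c)
        · intro a''
          have y4 := w3 0 a''
          rw [hdeg, g1] at y4
          exact y4
        · have y5 := t8 P' 0 a1
          have y6 := Submodule.mem_map_of_mem (f := LinearMap.mulRight k ((m * G : F)⁻¹)) y5
          rw [Submodule.map_span, ← Set.range_comp] at y6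
          have y8 : (LinearMap.mulRight k ((m * G : F)⁻¹) ∘ fun a'' =>
              cf (uch a b u) (dch a b dd) (sch a b J) m G P' 0 a'') =
              fun a'' => cf (uch a b u) (dch a b dd) (sch a b J) m G P' 0 a'' / (m * G) := by
            funext a''
            simp only [Function.comp_apply, LinearMap.mulRight_apply, div_eq_mul_inv]
          rw [y8] at y6
          rw [hγ, div_eq_mul_inv]
          exact y6
      have y7 := Pool.Agent.H62.HIL.pf_MON' _ y2 y3 (RingHom.isIntegralElem_one _)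
        (RingHom.isIntegralElem_one _)
      rwa [one_mul, one_mul] at y7) n sg _ le_rfl (mls_tr hTRY hB a b sg n P' (hcon n hn3))
  rw [hdeg] at h7
  have h8 := X_pos hδ (by omega : 1 ≤ m) hn3
  have h9 : (0 : ℤ) < 100 * δ * q := by
    have h10 : 1 ≤ δ * q := Nat.mul_le_mul hδ hq
    have h11 : (1 : ℤ) ≤ δ * q := by exact_mod_cast h10
    linarith
  push_cast at h5 h6 h7
  have h10 : (162 * (100 * (δ : ℤ) * q)) * (Module.finrank k (E (uch a b u) (dch a b dd)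
      (sch a b J) m G n 0) : ℤ) ≤ (162 * (100 * (δ : ℤ) * q)) * UU δ (2 * (j0 + sg)) m 3 1 h n := by
    apply mul_le_mul_of_nonneg_left h7
    positivity
  nlinarith

end Pool.Agent.H92.S2
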