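import Pool.Agent.H92.S2.LUT2
import Pool.Agent.H3.SF.Tg2

/-!
# Products of sections (row MUL of sfu_modules)
-/

set_option autoImplicit false

namespace Pool.Agent.H92.S2.MUL

open MvPolynomial
open Pool.Agent.H84.SM (dp cr dt)
open Pool.Agent.H3.SF Pool.Agent.H3.S2 Pool.Agent.H92.SF Pool.Agent.H92.S2

theorem pf_MUL2 (hDAT : T_DAT2) (hTWM : Pool.Agent.H3.SF.T_TWM) : T_MUL2 := by
  intro k F _ _ _ _ _ u dd δ j0 c0 J m G hB
  have _ := hDAT
  obtain ⟨h1, -, -, h4, -⟩ := hTWM k F u dd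
  have key : ∀ (n n' : ℕ) (τ τ' : ℤ) (V V' : Q2 F),
      V ∈ E u dd J m G n τ → V' ∈ E u dd J m G n' τ' → V * V' ∈ E u dd J m G (n + n') (τ + τ') := by
    intro n n' τ τ' V V' hV hV'
    obtain ⟨a1, a2⟩ := hV
    obtain ⟨b1, b2⟩ := hV'
    refine ⟨h1 n n' τ τ' V V' a1 b1, fun j a => ?_⟩
    rw [map_mul, Polynomial.coeff_mul, coeff_sum]
    refine (Bb k u).sum_mem fun x _ => ?_
    rw [coeff_mul]
    refine (Bb k u).sum_mem fun y _ => ?_
    exact (Bb k u).mul_mem (a2 _ _) (b2 _ _)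
  refine ⟨key, ?_⟩
  intro n τ e z V hz hV
  have hzE : cq z ∈ E u dd J m G 0 e := by
    refine ⟨h4 e z hz.2, fun j a => ?_⟩
    have hP : Ps u dd J m G (cq z) = Polynomial.C (C z) := by
      unfold Ps Psi ev2 cq cc
      rw [RingHom.comp_apply, Polynomial.coe_eval₂RingHom, Polynomial.eval₂_C, eval₂Hom_C,
        RingHom.comp_apply]
    rw [hP, Polynomial.coeff_C]
    split_ifs
    · rw [coeff_C]
      split_ifs
      · exact hz.1
      · exact (Bb k u).zero_mem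
    · rw [coeff_zero]
      exact (Bb k u).zero_mem
  have h := key 0 n e τ (cq z) V hzE hV
  rwa [zero_add, add_comm e τ] at h

end Pool.Agent.H92.S2.MUL
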