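import Pool.Agent.H92.S2.LUT2

/-!
# MP_70ba79_ag, THEOREM S: row RDT: residues modulo `G`
-/

set_option autoImplicit false

namespace Pool.Agent.H92.S2.RDT

open MvPolynomial
open Pool.Agent.H84.SM (dp cr dt)
open Pool.Agent.H3.SF Pool.Agent.H3.S2 Pool.Agent.H92.SF Pool.Agent.H92.S2

theorem pf_RDT2 : T_RDT2 := by
  intro k F _ _ _ _ _ u dd δ j0 c0 J m G hB e
  have hδ : (1 : ℤ) ≤ δ := by exact_mod_cast hB.pos
  have hc0 : (0 : ℤ) ≤ c0 := Int.natCast_nonneg _
  have hm0 : (0 : ℤ) ≤ m := Int.natCast_nonneg _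
  have hnn : (0 : ℤ) ≤ Module.finrank k (BB k u (eu u dd) (e - m)) := Int.natCast_nonneg _
  rcases lt_or_ge e 0 with he | he
  · rw [hB.neg e he, finrank_bot]
    have h1 : (0 : ℤ) ≤ δ * (m + 2 * c0) * max 0 (e + c0) := by positivity
    push_cast
    linarith
  · obtain ⟨t, rfl⟩ := Int.eq_ofNat_of_zero_le he
    have hup : (2 : ℤ) * Module.finrank k (BB k u (eu u dd) t) ≤ δ * (t + c0) ^ 2 := by
      exact_mod_cast hB.up t
    have hmax : max 0 ((t : ℤ) + c0) = t + c0 := max_eq_right (by positivity)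
    rw [hmax]
    have ht : (0 : ℤ) ≤ t := Int.natCast_nonneg _
    rcases lt_or_ge (t : ℤ) (m + c0) with h | h
    · have h2 : (δ : ℤ) * (t + c0) ^ 2 ≤ δ * (m + 2 * c0) * (t + c0) := by
        have h3 : ((t : ℤ) + c0) ≤ m + 2 * c0 := by linarith
        have h4 : (0 : ℤ) ≤ δ * (t + c0) := by positivity
        nlinarith [mul_le_mul_of_nonneg_left h3 h4]
      have h5 : (0 : ℤ) ≤ δ * (m + 2 * c0) * (t + c0) := by positivity
      linarith
    · obtain ⟨s, hs⟩ : ∃ s : ℕ, (t : ℤ) - m = s := ⟨((t : ℤ) - m).toNat, by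
        rw [Int.toNat_of_nonneg]; linarith⟩
      rw [hs]
      have hcs : c0 ≤ s := by
        have : (c0 : ℤ) ≤ s := by linarith
        exact_mod_cast this
      have hlo : (δ : ℤ) * (s - c0) ^ 2 ≤ 2 * Module.finrank k (BB k u (eu u dd) s) := by
        have h6 := hB.lo s hcs
        have h7 : ((δ * (s - c0) ^ 2 : ℕ) : ℤ) ≤
            ((2 * Module.finrank k (BB k u (eu u dd) s) : ℕ) : ℤ) := by exact_mod_cast h6
        rw [Nat.cast_mul, Nat.cast_pow, Nat.cast_sub hcs, Nat.cast_mul] at h7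
        exact_mod_cast h7
      have hst : (s : ℤ) = t - m := hs.symm
      have h8 : (δ : ℤ) * (t + c0) ^ 2 - δ * (s - c0) ^ 2 =
          δ * (m + 2 * c0) * (2 * t - m) := by rw [hst]; ring
      have h9 : (δ : ℤ) * (m + 2 * c0) * (2 * t - m) ≤ 2 * (δ * (m + 2 * c0) * (t + c0)) := by
        have h10 : (0 : ℤ) ≤ δ * (m + 2 * c0) := by positivity
        nlinarith [mul_nonneg h10 (by linarith : (0 : ℤ) ≤ m + 2 * c0)]
      linarith

end Pool.Agent.H92.S2.RDT
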