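import Pool.Agent.H92.S2.LU2

/-!
# MP_70ba79_ag, THEOREM S, part 2: bounds for the spaces of sections, reduced curves: targets
-/

set_option autoImplicit false

namespace Pool.Agent.H92.S2

open MvPolynomial
open Pool.Agent.H84.SM (dp cr dt)
open Pool.Agent.H3.SF Pool.Agent.H3.S2 Pool.Agent.H92.SF

/-! ### Rows with the old proof -/

/-- HIV2: homogeneous integral elements and valuation rings -/
def T_HIV2 : Prop := ∀ (k F : Type) [Field k] [IsAlgClosed k] [CharZero k] [Field F] [Algebra k F]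
  (u : Fin 3 → F) (dd : Fin 3 → Derivation k F F) (δ j0 c0 : ℕ) (J : MvPolynomial (Fin 3) k)
  (m : ℕ) (G : F), Bw u dd δ j0 c0 J m G →
  ∀ (V : ValuationSubring F), (∀ c : k, algebraMap k F c ∈ V) → ∀ i, (∀ j, u j / u i ∈ V) →
  ∀ (e : ℤ) (z : F), Itg k u z → Hm k (eu u dd) e z → z / u i ^ e ∈ V

/-- DAT2: elementary consequences -/
def T_DAT2 : Prop := ∀ (k F : Type) [Field k] [IsAlgClosed k] [CharZero k] [Field F] [Algebra k F]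
  (u : Fin 3 → F) (dd : Fin 3 → Derivation k F F) (δ j0 c0 : ℕ) (J : MvPolynomial (Fin 3) k)
  (m : ℕ) (G : F), Bw u dd δ j0 c0 J m G →
  Dat m u (grd dd G) G (hes dd G) ∧ (∀ i, u i ≠ 0) ∧ aeval u J ≠ 0 ∧ (m : F) * G ≠ 0 ∧
  (∀ i, Hm k (eu u dd) 1 (u i)) ∧ Hm k (eu u dd) j0 (aeval u J) ∧
  (∀ l, Hm k (eu u dd) ((m : ℤ) - 1) (dd l G)) ∧
  (∀ i l, Hm k (eu u dd) ((m : ℤ) - 2) (dd i (dd l G))) ∧
  (∀ l, Itg k u (aeval u J * dd l G)) ∧ ∀ i l, Itg k u (aeval u J ^ 2 * dd i (dd l G))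

/-- DEG2: degrees of the coefficients in the chart -/
def T_DEG2 : Prop := ∀ (k F : Type) [Field k] [IsAlgClosed k] [CharZero k] [Field F] [Algebra k F]
  (u : Fin 3 → F) (dd : Fin 3 → Derivation k F F) (δ j0 c0 : ℕ) (J : MvPolynomial (Fin 3) k)
  (m : ℕ) (G : F), Bw u dd δ j0 c0 J m G → ∀ (n : ℕ) (τ : ℤ) (V : Q2 F), Tw u dd n τ V →
  (∀ (j : ℕ) (a : Fin 3 →₀ ℕ), Hm k (eu u dd)
    (τ + n * ((m : ℤ) + 2 * j0 - 2) - j * (2 * m + 6 * j0 - 3)) (cf u dd J m G V j a)) ∧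
  ∀ j a, cf u dd J m G V j a ≠ 0 → a 0 + a 1 + a 2 + 3 * j = n

/-- FIN2: finite dimension -/
def T_FIN2 : Prop := ∀ (k F : Type) [Field k] [IsAlgClosed k] [CharZero k] [Field F] [Algebra k F]
  (u : Fin 3 → F) (dd : Fin 3 → Derivation k F F) (δ j0 c0 : ℕ) (J : MvPolynomial (Fin 3) k)
  (m : ℕ) (G : F), Bw u dd δ j0 c0 J m G → ∀ (n : ℕ) (τ : ℤ),
  Module.Finite k (E u dd J m G n τ)

/-- FAC2: factors -/
def T_FAC2 : Prop := ∀ (k F : Type) [Field k] [IsAlgClosed k] [CharZero k] [Field F] [Algebra k F]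
  (u : Fin 3 → F) (dd : Fin 3 → Derivation k F F) (δ j0 c0 : ℕ) (J : MvPolynomial (Fin 3) k)
  (m : ℕ) (G : F), Bw u dd δ j0 c0 J m G → ∀ (n w i : ℕ) (τ τP : ℤ) (P N : Q2 F),
  Tw u dd w τP P → Tw u dd n τ (P ^ i * N) → P ^ i * N ≠ 0 →
  w * i ≤ n ∧ Tw u dd (n - w * i) (τ - i * τP) N

/-- CTP2: the coefficient of the top power of `ζ` -/
def T_CTP2 : Prop := ∀ (k F : Type) [Field k] [IsAlgClosed k] [CharZero k] [Field F] [Algebra k F]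
  (u : Fin 3 → F) (dd : Fin 3 → Derivation k F F) (δ j0 c0 : ℕ) (J : MvPolynomial (Fin 3) k)
  (m : ℕ) (G : F), Bw u dd δ j0 c0 J m G → ∀ (P : Q2 F), P ≠ 0 →
  ∃ a, cf u dd J m G P P.natDegree a ≠ 0

/-- FRK2: the field of the pencil -/
def T_FRK2 : Prop := ∀ (k F : Type) [Field k] [IsAlgClosed k] [CharZero k] [Field F] [Algebra k F]
  (u : Fin 3 → F) (dd : Fin 3 → Derivation k F F) (δ j0 c0 : ℕ) (J : MvPolynomial (Fin 3) k)
  (m : ℕ) (G : F), Bw u dd δ j0 c0 J m G →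
  AlgebraicIndependent (kap k u) ![u 0, u 2] ∧
  Module.finrank (kF (kap k u) ![u 0, u 2]) F = δ ∧ (∀ c ∈ kap k u, eu u dd c = 0) ∧
  (∀ a, Itg k u a → ItK k u a) ∧
  (∀ a, a ∈ kF (kap k u) ![u 0, u 2] ↔ a ∈ kF k u) ∧ Transcendental k (u 1 / u 0)

/-- UON2: the chain -/
def T_UON2 : Prop := ∀ (k F : Type) [Field k] [IsAlgClosed k] [CharZero k] [Field F] [Algebra k F]
  (u : Fin 3 → F) (dd : Fin 3 → Derivation k F F) (δ j0 c0 : ℕ) (J : MvPolynomial (Fin 3) k)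
  (m : ℕ) (G : F), Bw u dd δ j0 c0 J m G → ∀ (n : ℕ) (τ : ℤ) (W : Submodule (kap k u) (Q2 F)),
  Module.Finite (kap k u) W → (∀ V ∈ E u dd J m G n τ, V ∈ W) →
  Module.finrank k (E u dd J m G n τ) ≤
    Module.finrank k (E u dd J m G n (τ - 1)) + Module.finrank (kap k u) W

/-- LMG2: dimension of spaces of integral elements, with gain -/
def T_LMG2 : Prop := ∀ (k F : Type) [Field k] [IsAlgClosed k] [CharZero k] [Field F] [Algebra k F]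
  (u : Fin 3 → F) (dd : Fin 3 → Derivation k F F) (δ j0 c0 : ℕ) (J : MvPolynomial (Fin 3) k)
  (m : ℕ) (G : F), Bw u dd δ j0 c0 J m G →
  ∀ (ω : F) (h : ℕ) (H A : MvPolynomial (Fin 3) k), H.IsHomogeneous h →
  H.coeff (Finsupp.single 2 h) ≠ 0 → IsRelPrime A H →
  ((Algebra.norm (kF k u) ω : kF k u) : F) * aeval u H = aeval u A →
  ∀ (i : ℕ) (e : ℤ) (W : Submodule (kap k u) F), (∀ x ∈ W, Hm k (eu u dd) e x ∧ ItK k u x ∧
    ItK k u (x * ω ^ i)) → Module.Finite (kap k u) W ∧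
      (Module.finrank (kap k u) W : ℤ) ≤ max 0 (δ * (e + 1) - i * h)

/-- TRY2: change of coordinates, the sections -/
def T_TRY2 : Prop := ∀ (k F : Type) [Field k] [IsAlgClosed k] [CharZero k] [Field F] [Algebra k F]
  (u : Fin 3 → F) (dd : Fin 3 → Derivation k F F) (δ j0 c0 : ℕ) (J : MvPolynomial (Fin 3) k)
  (m : ℕ) (G : F), Bw u dd δ j0 c0 J m G → ∀ a b : k,
  Function.Bijective (Tch a b u) ∧ (∀ c : F, Tch a b u (cq c) = cq c) ∧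
  Tch a b u Polynomial.X = Polynomial.X ∧
  (∀ n τ V, Tw (uch a b u) (dch a b dd) n τ V ↔ Tw u dd n τ (Tch a b u V)) ∧
  (∀ n τ V, V ∈ E (uch a b u) (dch a b dd) (sch a b J) m G n τ ↔
    Tch a b u V ∈ E u dd J m G n τ) ∧
  (∀ V, (Tch a b u V).natDegree = V.natDegree) ∧
  (∀ V, (Tch a b u V).coeff 1 = 1 ↔ V.coeff 1 = 1) ∧
  ∀ V j a', cf u dd J m G (Tch a b u V) j a' ∈
    Submodule.span k (Set.range fun a'' => cf (uch a b u) (dch a b dd) (sch a b J) m G V j a'')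

/-- MUL2: products of sections -/
def T_MUL2 : Prop := ∀ (k F : Type) [Field k] [IsAlgClosed k] [CharZero k] [Field F] [Algebra k F]
  (u : Fin 3 → F) (dd : Fin 3 → Derivation k F F) (δ j0 c0 : ℕ) (J : MvPolynomial (Fin 3) k)
  (m : ℕ) (G : F), Bw u dd δ j0 c0 J m G → (∀ (n n' : ℕ) (τ τ' : ℤ) (V V' : Q2 F),
    V ∈ E u dd J m G n τ → V' ∈ E u dd J m G n' τ' → V * V' ∈ E u dd J m G (n + n') (τ + τ')) ∧
  ∀ (n : ℕ) (τ e : ℤ) (z : F) (V : Q2 F), z ∈ BB k u (eu u dd) e → V ∈ E u dd J m G n τ →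
    cq z * V ∈ E u dd J m G n (τ + e)

/-- QSC2: the sections `q` and `J s` -/
def T_QSC2 : Prop := ∀ (k F : Type) [Field k] [IsAlgClosed k] [CharZero k] [Field F] [Algebra k F]
  (u : Fin 3 → F) (dd : Fin 3 → Derivation k F F) (δ j0 c0 : ℕ) (J : MvPolynomial (Fin 3) k)
  (m : ℕ) (G : F), Bw u dd δ j0 c0 J m G → ∀ l : Fin 3,
  Polynomial.C (qf u dd m G l) ∈ E u dd J m G 1 1 ∧ js u dd J m G l ∈ E u dd J m G 3 (j0 + 2) ∧
  (js u dd J m G l).natDegree ≤ 1 ∧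
  (js u dd J m G l).coeff 1 = C (aeval u J * dd l G * ((m : F) * G)⁻¹)

/-- FGB2: finitely many homogeneous generators -/
def T_FGB2 : Prop := ∀ (k F : Type) [Field k] [IsAlgClosed k] [CharZero k] [Field F] [Algebra k F]
  (u : Fin 3 → F) (dd : Fin 3 → Derivation k F F) (δ j0 c0 : ℕ) (J : MvPolynomial (Fin 3) k)
  (m : ℕ) (G : F), Bw u dd δ j0 c0 J m G → ∃ (s : ℕ) (η : Fin s → F) (d : Fin s → ℕ),
  (∀ i, η i ∈ BB k u (eu u dd) (d i)) ∧ ∀ (e : ℕ) (b : F), b ∈ BB k u (eu u dd) e →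
    ∃ P : Fin s → MvPolynomial (Fin 3) k, (∀ i, d i ≤ e → (P i).IsHomogeneous (e - d i)) ∧
      (∀ i, e < d i → P i = 0) ∧ b = ∑ i, aeval u (P i) * η i

/-- KQA2: the relation between the forms `q` -/
def T_KQA2 : Prop := ∀ (k F : Type) [Field k] [IsAlgClosed k] [CharZero k] [Field F] [Algebra k F]
  (u : Fin 3 → F) (dd : Fin 3 → Derivation k F F) (δ j0 c0 : ℕ) (J : MvPolynomial (Fin 3) k)
  (m : ℕ) (G : F), Bw u dd δ j0 c0 J m G → ∀ (i : ℕ) (b : MvPolynomial (Fin 3) F),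
  b.IsHomogeneous i → aeval (qf u dd m G) b = 0 → ∃ c : MvPolynomial (Fin 3) F,
  (i = 0 → c = 0) ∧ (1 ≤ i → c.IsHomogeneous (i - 1)) ∧ b = (∑ l, C (dd l G) * X l) * c

/-- RDT2: residues modulo `G` -/
def T_RDT2 : Prop := ∀ (k F : Type) [Field k] [IsAlgClosed k] [CharZero k] [Field F] [Algebra k F]
  (u : Fin 3 → F) (dd : Fin 3 → Derivation k F F) (δ j0 c0 : ℕ) (J : MvPolynomial (Fin 3) k)
  (m : ℕ) (G : F), Bw u dd δ j0 c0 J m G → ∀ e : ℤ,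
  (Module.finrank k (BB k u (eu u dd) e) : ℤ) ≤
    Module.finrank k (BB k u (eu u dd) (e - m)) + δ * (m + 2 * c0) * max 0 (e + c0)

/-! ### General position -/

/-- TRX2: change of coordinates, the data -/
def T_TRX2 : Prop := ∀ (k F : Type) [Field k] [IsAlgClosed k] [CharZero k] [Field F] [Algebra k F]
  (u : Fin 3 → F) (dd : Fin 3 → Derivation k F F) (δ j0 c0 : ℕ) (J : MvPolynomial (Fin 3) k)
  (m : ℕ) (G : F), Bw u dd δ j0 c0 J m G → ∀ a b : k,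
  Bw (uch a b u) (dch a b dd) δ j0 c0 (sch a b J) m G ∧
  (∀ (sg : ℕ) (S : MvPolynomial (Fin 3) k), Crs u dd m G sg S →
    Crs (uch a b u) (dch a b dd) m G sg (sch a b S)) ∧
  (∀ x, Itg k (uch a b u) x ↔ Itg k u x) ∧ kF k (uch a b u) = kF k u ∧
  (∀ q, aeval (uch a b u) (sch a b q) = aeval u q) ∧
  (∀ x, eu (uch a b u) (dch a b dd) x = eu u dd x)

/-- N2Y: for a general projection `J * dd 2 G` is no zero divisor modulo `G`, apart from the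
components on which `J` is zero -/
def T_N2Y : Prop := ∀ (k F : Type) [Field k] [IsAlgClosed k] [CharZero k] [Field F] [Algebra k F]
  (u : Fin 3 → F) (dd : Fin 3 → Derivation k F F) (δ j0 c0 : ℕ) (J : MvPolynomial (Fin 3) k)
  (m : ℕ) (G : F), Bw u dd δ j0 c0 J m G →
  ∃ (r : ℕ) (Λ : MvPolynomial (Fin 3) k), Λ ≠ 0 ∧ Λ.IsHomogeneous r ∧
  ∀ a b : k, eval ![a, b, 1] Λ ≠ 0 → ∀ z, Itg k u z →
  Itg k u (aeval u J * dch a b dd 2 G * z / G) → Itg k u (aeval u J * z / G)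

/-- PEN2: choice of the coordinates -/
def T_PEN2 : Prop := ∀ (k F : Type) [Field k] [IsAlgClosed k] [CharZero k] [Field F] [Algebra k F]
  (u : Fin 3 → F) (dd : Fin 3 → Derivation k F F) (δ j0 c0 : ℕ) (J : MvPolynomial (Fin 3) k)
  (m : ℕ) (G : F), Sfc u dd δ j0 c0 J → j0 + 4 ≤ m → ∀ (sg : ℕ) (S : MvPolynomial (Fin 3) k),
  Crs u dd m G sg S → 
  ∀ (h : ℕ) (H : MvPolynomial (Fin 3) k), H.IsHomogeneous h → H ≠ 0 → ∃ a b : k,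
  Gw (uch a b u) (dch a b dd) δ j0 c0 (sch a b J) m G ∧
    Crs (uch a b u) (dch a b dd) m G sg (sch a b S) ∧
    (sch a b H).coeff (Finsupp.single 2 h) ≠ 0

/-- BAS2: `J` is in the ideal of `G` and `J * dd 2 G` on the line -/
def T_BAS2 : Prop := ∀ (k F : Type) [Field k] [IsAlgClosed k] [CharZero k] [Field F] [Algebra k F]
  (u : Fin 3 → F) (dd : Fin 3 → Derivation k F F) (δ j0 c0 : ℕ) (J : MvPolynomial (Fin 3) k)
  (m : ℕ) (G : F), Gw u dd δ j0 c0 J m G → ∃ (N : ℕ) (z : Fin 4 → F), (∀ i, ItK k u (z i)) ∧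
  aeval u J * u 0 ^ N = G * z 0 + aeval u J * dd 2 G * z 1 ∧
  aeval u J * u 2 ^ N = G * z 2 + aeval u J * dd 2 G * z 3

/-! ### Upper bound -/

/-- UTW2: the leading coefficient -/
def T_UTW2 : Prop := ∀ (k F : Type) [Field k] [IsAlgClosed k] [CharZero k] [Field F] [Algebra k F]
  (u : Fin 3 → F) (dd : Fin 3 → Derivation k F F) (δ j0 c0 : ℕ) (J : MvPolynomial (Fin 3) k)
  (m : ℕ) (G : F), Gw u dd δ j0 c0 J m G → ∀ (n : ℕ) (V : Q2 F), WH n V →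
  (∀ j a, ItK k u (cf u dd J m G V j a)) → ∀ (s : ℕ) (a : Fin 2 →₀ ℕ),
  a 0 + a 1 + 3 * s = n → (∀ j, s < j → V.coeff j = 0) →
  (∀ a' : Fin 2 →₀ ℕ, a 0 < a' 0 → (V.coeff s).coeff a' = 0) →
  ItK k u ((V.coeff s).coeff a * G ^ (s + a 0) * aeval u J ^ (4 * (n - 3 * s)) *
    u 0 ^ (n - 3 * s))

/-- UTH2: dimension of the space of sections divisible by `P ^ i` -/
def T_UTH2 : Prop := ∀ (k F : Type) [Field k] [IsAlgClosed k] [CharZero k] [Field F] [Algebra k F]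
  (u : Fin 3 → F) (dd : Fin 3 → Derivation k F F) (δ j0 c0 : ℕ) (J : MvPolynomial (Fin 3) k)
  (m : ℕ) (G : F), Gw u dd δ j0 c0 J m G → ∀ (w : ℕ) (τP : ℤ) (P : Q2 F), P ≠ 0 →
  Tw u dd w τP P → ∀ a0 : Fin 3 →₀ ℕ, cf u dd J m G P P.natDegree a0 ≠ 0 → ∀ (g i : ℕ),
  (∀ (e : ℤ) (W : Submodule (kap k u) F), (∀ x ∈ W, Hm k (eu u dd) e x ∧ ItK k u x ∧
    ∀ j a, ItK k u (x * (cf u dd J m G P j a / cf u dd J m G P P.natDegree a0) ^ i)) →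
    Module.Finite (kap k u) W ∧
      (Module.finrank (kap k u) W : ℤ) ≤ max 0 (δ * (e + 1) - i * g)) →
  ∀ (n j2 : ℕ) (τ : ℤ) (W : Submodule (kap k u) (Q2 F)), 2 * j0 ≤ j2 → (∀ V ∈ W, Tw u dd n τ V ∧
    (∀ j a, ItK k u (cf u dd J m G V j a)) ∧ P ^ i ∣ V) →
  Module.Finite (kap k u) W ∧
    (Module.finrank (kap k u) W : ℤ) ≤ SS δ j2 m w P.natDegree g n i τ

/-- UPG2: the upper bound, if there are many sections divisible by powers of `P` -/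
def T_UPG2 : Prop := ∀ (k F : Type) [Field k] [IsAlgClosed k] [CharZero k] [Field F] [Algebra k F]
  (u : Fin 3 → F) (dd : Fin 3 → Derivation k F F) (δ j0 c0 : ℕ) (J : MvPolynomial (Fin 3) k)
  (m : ℕ) (G : F), Gw u dd δ j0 c0 J m G → ∀ (w : ℕ) (τP : ℤ) (P : Q2 F), P ≠ 0 → 1 ≤ w →
  3 * P.natDegree ≤ w →
  Tw u dd w τP P → ∀ a0 : Fin 3 →₀ ℕ, cf u dd J m G P P.natDegree a0 ≠ 0 → ∀ g : ℕ,
  (∀ (i : ℕ) (e : ℤ) (W : Submodule (kap k u) F), (∀ x ∈ W, Hm k (eu u dd) e x ∧ ItK k u x ∧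
    ∀ j a, ItK k u (x * (cf u dd J m G P j a / cf u dd J m G P P.natDegree a0) ^ i)) →
    Module.Finite (kap k u) W ∧
      (Module.finrank (kap k u) W : ℤ) ≤ max 0 (δ * (e + 1) - i * g)) →
  ∀ n sg j2 : ℕ, 2 * (j0 + sg) ≤ j2 → Mls u dd J j0 m sg G n P →
  (Module.finrank k (E u dd J m G n 0) : ℤ) ≤ UU δ j2 m w P.natDegree g n

/-- UPN2: the upper bound, if there are no sections of negative twist -/
def T_UPN2 : Prop := ∀ (k F : Type) [Field k] [IsAlgClosed k] [CharZero k] [Field F] [Algebra k F]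
  (u : Fin 3 → F) (dd : Fin 3 → Derivation k F F) (δ j0 c0 : ℕ) (J : MvPolynomial (Fin 3) k)
  (m : ℕ) (G : F), Gw u dd δ j0 c0 J m G → ∀ n j2 : ℕ, 2 * j0 ≤ j2 →
  (∀ V ∈ E u dd J m G n (-(2 * n * j2 + 1 : ℕ)), V = 0) →
  (Module.finrank k (E u dd J m G n 0) : ℤ) ≤ (2 * n * j2 + 1) * SS δ j2 m 0 0 0 n 0 0

/-! ### Numerical rows for the upper bound -/

/-- NUF2: weight at least 4 -/
def T_NUF2 : Prop := ∀ δ : ℕ, 1 ≤ δ → ∃ N : ℕ, ∀ j2 m w jP : ℕ, N * (j2 + 1) ≤ m → 4 ≤ w →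
  1 ≤ jP → 3 * jP ≤ w → ∃ n1 : ℕ, ∀ n : ℕ, n1 ≤ n →
  162 * 20 * UU δ j2 m w jP 0 n ≤ 19 * (δ * m ^ 2 * n ^ 4)

/-- NUT2: weight 3 -/
def T_NUT2 : Prop := ∀ δ q : ℕ, 1 ≤ δ → 1 ≤ q → ∃ N : ℕ, ∀ j2 m g : ℕ, N * (j2 + 1) ≤ m →
  m ≤ q * g → ∃ n1 : ℕ, ∀ n : ℕ, n1 ≤ n →
  162 * (100 * δ * q) * UU δ j2 m 3 1 g n ≤ (100 * δ * q - 2) * (δ * m ^ 2 * n ^ 4)

/-- NUN2: no sections of negative twist -/
def T_NUN2 : Prop := ∀ δ : ℕ, 1 ≤ δ → ∃ N : ℕ, ∀ j2 m : ℕ, N * (j2 + 1) ≤ m →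
  ∃ n1 : ℕ, ∀ n : ℕ, n1 ≤ n →
  162 * 4 * ((2 * n * j2 + 1) * SS δ j2 m 0 0 0 n 0 0) ≤ δ * m ^ 2 * n ^ 4

/-! ### Lower bound -/

/-- REA2: integrality over the ring generated by the derivatives of `G` -/
def T_REA2 : Prop := ∀ (k F : Type) [Field k] [IsAlgClosed k] [CharZero k] [Field F] [Algebra k F]
  (u : Fin 3 → F) (dd : Fin 3 → Derivation k F F) (δ j0 c0 : ℕ) (J : MvPolynomial (Fin 3) k)
  (m : ℕ) (G : F), Bw u dd δ j0 c0 J m G → ∀ (sg : ℕ) (S : MvPolynomial (Fin 3) k),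
  Crs u dd m G sg S → sg + 1 ≤ m → ∀ β : Fin (m - 1 - sg) → Fin 3,
  Itg k (fun l => aeval u J * dd l G) (aeval u J * aeval u S * ∏ i, u (β i))

/-- RED2: reduction -/
def T_RED2 : Prop := ∀ (k F : Type) [Field k] [IsAlgClosed k] [CharZero k] [Field F] [Algebra k F]
  (u : Fin 3 → F) (dd : Fin 3 → Derivation k F F) (δ j0 c0 : ℕ) (J : MvPolynomial (Fin 3) k)
  (m : ℕ) (G : F), Bw u dd δ j0 c0 J m G → ∀ (sg : ℕ) (S : MvPolynomial (Fin 3) k),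
  Crs u dd m G sg S → sg + 1 ≤ m → ∃ c1 e1 : ℕ, ∀ (N e : ℕ) (b : F),
  (m - 1) * (N + c1) + e1 ≤ e → b ∈ BB k u (eu u dd) e → ∃ z : (Fin N → Fin 3) → F,
  (∀ l, z l ∈ BB k u (eu u dd) ((e : ℤ) + (N + c1) * (j0 + sg) - N * (j0 + m - 1))) ∧
    (aeval u J * aeval u S) ^ (N + c1) * b = ∑ l, (∏ i, (aeval u J * dd (l i) G)) * z l

/-- LTC2: sections with given leading coefficient in `w` -/
def T_LTC2 : Prop := ∀ (k F : Type) [Field k] [IsAlgClosed k] [CharZero k] [Field F] [Algebra k F]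
  (u : Fin 3 → F) (dd : Fin 3 → Derivation k F F) (δ j0 c0 : ℕ) (J : MvPolynomial (Fin 3) k)
  (m : ℕ) (G : F), Bw u dd δ j0 c0 J m G → ∀ (sg : ℕ) (S : MvPolynomial (Fin 3) k),
  Crs u dd m G sg S → sg + 1 ≤ m → ∃ c1 e1 : ℕ, ∀ (N i e : ℕ)
  (b : MvPolynomial (Fin 3) F), (m - 1) * (N + c1) + e1 ≤ e → b.IsHomogeneous i →
  (∀ a, b.coeff a ∈ BB k u (eu u dd) e) →
  ∃ V ∈ E u dd J m G (i + 3 * N)
    ((e : ℤ) + c1 * (j0 + sg) + N * ((j0 : ℤ) + sg + 3 - m) + i), V.natDegree ≤ N ∧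
    V.coeff N = C ((aeval u J * aeval u S) ^ (N + c1) * (((m : F) * G)⁻¹) ^ N) *
      aeval (qf u dd m G) b

/-- KER2: dimension of the space of the forms `b(q)` -/
def T_KER2 : Prop := ∀ (k F : Type) [Field k] [IsAlgClosed k] [CharZero k] [Field F] [Algebra k F]
  (u : Fin 3 → F) (dd : Fin 3 → Derivation k F F) (δ j0 c0 : ℕ) (J : MvPolynomial (Fin 3) k)
  (m : ℕ) (G : F), Bw u dd δ j0 c0 J m G → ∀ (sg : ℕ) (S : MvPolynomial (Fin 3) k),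
  Crs u dd m G sg S → ∀ (i : ℕ) (e : ℤ),
  ∃ L : Submodule k (MvPolynomial (Fin 2) F), Module.Finite k L ∧
  (∀ f ∈ L, ∃ b : MvPolynomial (Fin 3) F, b.IsHomogeneous i ∧
    (∀ a, b.coeff a ∈ BB k u (eu u dd) e) ∧ aeval (qf u dd m G) b = f) ∧
  Module.finrank k (BB k u (eu u dd) e) * (i + 2).choose 2 ≤
    Module.finrank k L + Module.finrank k (BB k u (eu u dd) (e - m + 1 + sg)) * (i + 1).choose 2

/-- LON2: lower bound for large twist -/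
def T_LON2 : Prop := ∀ (k F : Type) [Field k] [IsAlgClosed k] [CharZero k] [Field F] [Algebra k F]
  (u : Fin 3 → F) (dd : Fin 3 → Derivation k F F) (δ j0 c0 : ℕ) (J : MvPolynomial (Fin 3) k)
  (m : ℕ) (G : F), Bw u dd δ j0 c0 J m G → ∀ (sg : ℕ) (S : MvPolynomial (Fin 3) k),
  Crs u dd m G sg S → sg + 1 ≤ m → ∃ c1 c2 : ℕ,
  ∀ n τ : ℕ, (j0 + sg + 2) * n + c2 ≤ τ →
  ∑ N ∈ Finset.range (n / 3 + 1),
    ((Module.finrank k (BB k u (eu u dd)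
        ((τ : ℤ) + (m - (j0 + sg)) * N - n - c1 * (j0 + sg))) : ℤ) *
      (n - 3 * N + 2).choose 2 -
      Module.finrank k (BB k u (eu u dd)
        ((τ : ℤ) + (m - (j0 + sg)) * N - n - c1 * (j0 + sg) - m + 1 + sg)) *
      (n - 3 * N + 1).choose 2) ≤ Module.finrank k (E u dd J m G n τ)

/-- RES2: coefficients divisible by `G` -/
def T_RES2 : Prop := ∀ (k F : Type) [Field k] [IsAlgClosed k] [CharZero k] [Field F] [Algebra k F]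
  (u : Fin 3 → F) (dd : Fin 3 → Derivation k F F) (δ j0 c0 : ℕ) (J : MvPolynomial (Fin 3) k)
  (m : ℕ) (G : F), Gw u dd δ j0 c0 J m G → ∀ V : Q2 F,
  (∀ j a, Itg k u (cf u dd J m G V j a)) → (∀ j a, a 2 = 0 → Itg k u (cf u dd J m G V j a / G)) →
  ∀ j a, Itg k u (aeval u J * cf u dd J m G V j a / G)

/-- LTW2: the step -/
def T_LTW2 : Prop := ∀ (k F : Type) [Field k] [IsAlgClosed k] [CharZero k] [Field F] [Algebra k F]
  (u : Fin 3 → F) (dd : Fin 3 → Derivation k F F) (δ j0 c0 : ℕ) (J : MvPolynomial (Fin 3) k)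
  (m : ℕ) (G : F), Gw u dd δ j0 c0 J m G → ∀ n τ : ℕ,
  (Module.finrank k (E u dd J m G n τ) : ℤ) ≤
    Module.finrank k (E u dd J m G n ((τ : ℤ) - m + j0)) +
    nC n * (δ * (m + 2 * c0) * (τ + n * (m + 2 * j0) + c0))

/-- LNU2: the numerical part of the lower bound -/
def T_LNU2 : Prop := ∀ δ j0 c0 q : ℕ, 1 ≤ q → ∃ N0 : ℕ, ∀ m sg c1 c2 : ℕ, N0 * (sg + 1) ≤ m →
  ∃ n1 : ℕ, ∀ (b D : ℤ → ℕ) (n : ℕ), n1 ≤ n → (∀ t, t < 0 → b t = 0) →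
  (∀ t : ℕ, 2 * b t ≤ δ * (t + c0) ^ 2) → (∀ t : ℕ, c0 ≤ t → δ * (t - c0) ^ 2 ≤ 2 * b t) →
  (∀ τ : ℕ, (j0 + sg + 2) * n + c2 ≤ τ → ∑ N ∈ Finset.range (n / 3 + 1),
    ((b ((τ : ℤ) + (m - (j0 + sg)) * N - n - c1 * (j0 + sg)) : ℤ) * (n - 3 * N + 2).choose 2 -
      b ((τ : ℤ) + (m - (j0 + sg)) * N - n - c1 * (j0 + sg) - m + 1 + sg) *
        (n - 3 * N + 1).choose 2) ≤ D τ) →
  (∀ τ : ℕ, (D τ : ℤ) ≤ D ((τ : ℤ) - m + j0) +
    nC n * (δ * (m + 2 * c0) * (τ + n * (m + 2 * j0) + c0))) →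
  ((q : ℤ) - 1) * (δ * m ^ 2 * n ^ 4) ≤ 162 * q * D 0

/-- LOV2: the lower bound -/
def T_LOV2 : Prop := ∀ δ j0 c0 q : ℕ, 1 ≤ q → ∃ N : ℕ,
  ∀ (k F : Type) [Field k] [IsAlgClosed k] [CharZero k] [Field F] [Algebra k F]
  (u : Fin 3 → F) (dd : Fin 3 → Derivation k F F) (J : MvPolynomial (Fin 3) k) (m : ℕ) (G : F)
  (sg : ℕ) (S : MvPolynomial (Fin 3) k), N * (sg + 1) ≤ m → Gw u dd δ j0 c0 J m G →
  Crs u dd m G sg S → ∃ n1 : ℕ, ∀ n : ℕ, n1 ≤ n →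
  ((q : ℤ) - 1) * (δ * m ^ 2 * n ^ 4) ≤ 162 * q * Module.finrank k (E u dd J m G n 0)

end Pool.Agent.H92.S2
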