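import Pool.Agent.H92.S2.LUT2
import Pool.Agent.H92.SFU.UTW
import Pool.Agent.H92.SF.VAL
import Pool.Agent.H62.HIL.Gen

/-!
# UTW: the leading coefficient
-/

set_option autoImplicit false

namespace Pool.Agent.H92.S2.UTW

open MvPolynomial
open Pool.Agent.H84.SM (dp cr dt)
open Pool.Agent.H92.SFU (coeff_top coeff_mem psi_top)
open Pool.Agent.H3.SF Pool.Agent.H3.S2 Pool.Agent.H92.SF Pool.Agent.H92.S2



theorem pf_UTW2 (hDAT : T_DAT2) (hFRK : T_FRK2) (hBAS : T_BAS2) : T_UTW2 := by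
  classical
  intro k F _ _ _ _ _ u dd δ j0 c0 J m G hG n V hV hint s a ha hVs hVa
  obtain ⟨hD, hu0, hJ0, hmG, -, -, -, -, hIg, -⟩ := hDAT k F u dd δ j0 c0 J m G hG.toBw
  obtain ⟨hind, -, -, hIK, -, -⟩ := hFRK k F u dd δ j0 c0 J m G hG.toBw
  obtain ⟨N, z, hz, hN0, hN2⟩ := hBAS k F u dd δ j0 c0 J m G hG
  have : CharZero F := charZero_of_injective_algebraMap (algebraMap k F).injective
  have hmF : (m : F) ≠ 0 := left_ne_zero_of_mul hmG
  obtain ⟨S, hS⟩ : ∃ S : Subring F, ∀ x, x ∈ S ↔ ItK k u x :=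
    ⟨(Bb (kap k u) ![u 0, u 2]).toSubring, fun x => Iff.rfl⟩
  have hSk : ∀ c : k, algebraMap k F c ∈ S := by
    intro c
    rw [hS]
    exact (Bb (kap k u) ![u 0, u 2]).algebraMap_mem (algebraMap k _ c)
  have hItg : ∀ x, Itg k u x → x ∈ S := fun x hx => (hS x).mpr (hIK x hx)
  have hSu : ∀ i, u i ∈ S := by
    intro i
    apply hItg
    have h := ((aeval u : MvPolynomial (Fin 3) k →ₐ[k] F) :
      MvPolynomial (Fin 3) k →+* F).isIntegralElem_map (x := X i)
    simpa [Itg] using h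
  have hSJ : aeval u J ∈ S := hItg _ (((aeval u : MvPolynomial (Fin 3) k →ₐ[k] F) :
    MvPolynomial (Fin 3) k →+* F).isIntegralElem_map)
  have hSG : G ∈ S := hItg _ hG.itg
  have hSm : (m : F)⁻¹ ∈ S := by
    have h := hSk ((m : k)⁻¹)
    rwa [map_inv₀, map_natCast] at h
  set Jf : F := aeval u J with hJf
  set g2 : F := dd 2 G with hg2
  have hSg : Jf * g2 ∈ S := hItg _ (hIg 2)
  have hdeg : V.natDegree ≤ s := by
    rw [Polynomial.natDegree_le_iff_coeff_eq_zero]
    exact hVs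
  have hhom : (V.coeff s).IsHomogeneous (n - 3 * s) := (hV s).1 (by omega)
  -- evaluation
  have key : ∀ e : Fin 3 → F, (∀ i, e i ∈ S) →
      ((m : F) * G) ^ s * ((V.coeff s).coeff a * (Jf ^ 2 * (m * G) * u 0) ^ a 0 *
        (Jf ^ 2 * (g2 * dp u e - m * G * e 2)) ^ a 1) ∈ S := by
    intro e he
    set ρ : Fin 3 → Polynomial F := ![Polynomial.C (u 1) * Polynomial.X + Polynomial.C (e 0),
      -(Polynomial.C (u 0) * Polynomial.X) + Polynomial.C (e 1), Polynomial.C (e 2)] with hρ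
    have hρS : ∀ i n, (ρ i).coeff n ∈ S := by
      intro i n'
      have hX : (Polynomial.X : Polynomial F).coeff n' ∈ S := by
        rw [Polynomial.coeff_X]
        split_ifs
        · exact S.one_mem
        · exact S.zero_mem
      have hC : ∀ c ∈ S, (Polynomial.C c : Polynomial F).coeff n' ∈ S := by
        intro c hc
        rw [Polynomial.coeff_C]
        split_ifs
        · exact hc
        · exact S.zero_mem
      fin_cases i
      · show (Polynomial.C (u 1) * Polynomial.X + Polynomial.C (e 0)).coeff n' ∈ S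
        rw [Polynomial.coeff_add, Polynomial.coeff_C_mul]
        exact S.add_mem (S.mul_mem (hSu 1) hX) (hC _ (he 0))
      · show (-(Polynomial.C (u 0) * Polynomial.X) + Polynomial.C (e 1)).coeff n' ∈ S
        rw [Polynomial.coeff_add, Polynomial.coeff_neg, Polynomial.coeff_C_mul]
        exact S.add_mem (S.neg_mem (S.mul_mem (hSu 0) hX)) (hC _ (he 1))
      · exact hC _ (he 2)
    have h1 := coeff_mem S ((Ps u dd J m G V).coeff s) (fun α => (hS _).mpr (hint s α)) ρ hρS (a 0)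
    have h2 := psi_top m u (grd dd G) G (hes dd G) Jf V s hdeg ρ
    rw [show Ps u dd J m G V = Psi m u (grd dd G) G (hes dd G) Jf V from rfl, h2,
      Polynomial.coeff_C_mul] at h1
    have h3 : (![Polynomial.C (Jf ^ 2) * (Polynomial.C (grd dd G 1) *
            dp (fun i => Polynomial.C (u i)) ρ - Polynomial.C (m * G) * ρ 1),
          Polynomial.C (Jf ^ 2) * (Polynomial.C (grd dd G 2) *
            dp (fun i => Polynomial.C (u i)) ρ - Polynomial.C (m * G) * ρ 2)] :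
          Fin 2 → Polynomial F) =
        ![Polynomial.C (Jf ^ 2 * (m * G) * u 0) * Polynomial.X +
            Polynomial.C (Jf ^ 2 * (grd dd G 1 * dp u e - m * G * e 1)),
          Polynomial.C (Jf ^ 2 * (g2 * dp u e - m * G * e 2))] := by
      have h4 : dp (fun i => Polynomial.C (u i)) ρ = Polynomial.C (dp u e) := by
        simp only [dp, Fin.sum_univ_three, hρ, Matrix.cons_val_zero, Matrix.cons_val_one,
          Matrix.cons_val, map_add, map_mul]
        ring
      rw [h4]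
      funext i
      fin_cases i
      · simp only [hρ, Matrix.cons_val_zero, Matrix.cons_val_one, map_sub, map_mul,
          map_pow, Fin.zero_eta]
        ring
      · simp only [hρ, Matrix.cons_val_one, Matrix.cons_val, map_sub, map_mul, map_pow,
          Fin.mk_one, grd, hg2]
    rw [h3, coeff_top (V.coeff s) (n - 3 * s) hhom a (by omega) hVa] at h1
    exact h1
  set c : F := (V.coeff s).coeff a with hc
  set i := n - 3 * s with hi
  set b := a 0 with hb
  set a' := a 1 with ha'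
  set Xx : F := c * ((m : F) * G) ^ s * (Jf ^ 2 * (m * G) * u 0) ^ b * Jf ^ a' with hXx
  -- two elements
  have k1 : Xx * (Jf * g2 * u 0) ^ a' ∈ S := by
    have h := key ![1, 0, 0] (by
      intro i
      fin_cases i
      · exact S.one_mem
      · exact S.zero_mem
      · exact S.zero_mem)
    have h5 : dp u ![1, 0, 0] = u 0 := by simp [dp, Fin.sum_univ_three]
    rw [h5] at h
    have h6 : Jf ^ 2 * (g2 * u 0 - m * G * (![1, 0, 0] : Fin 3 → F) 2) = Jf * (Jf * g2 * u 0) := by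
      simp only [Matrix.cons_val]
      ring
    rw [h6, mul_pow Jf] at h
    have h7 : Xx * (Jf * g2 * u 0) ^ a' = ((m : F) * G) ^ s * (c * (Jf ^ 2 * (m * G) * u 0) ^ b *
        (Jf ^ a' * (Jf * g2 * u 0) ^ a')) := by
      rw [hXx]
      ring
    rw [h7]
    exact h
  have k2 : Xx * (Jf * g2 * u 2 - m * Jf * G) ^ a' ∈ S := by
    have h := key ![0, 0, 1] (by
      intro i
      fin_cases i
      · exact S.zero_mem
      · exact S.zero_mem
      · exact S.one_mem)
    have h5 : dp u ![0, 0, 1] = u 2 := by simp [dp, Fin.sum_univ_three]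
    rw [h5] at h
    have h6 : Jf ^ 2 * (g2 * u 2 - m * G * (![0, 0, 1] : Fin 3 → F) 2) =
        Jf * (Jf * g2 * u 2 - m * Jf * G) := by
      simp only [Matrix.cons_val]
      ring
    rw [h6, mul_pow Jf] at h
    have h7 : Xx * (Jf * g2 * u 2 - m * Jf * G) ^ a' = ((m : F) * G) ^ s *
        (c * (Jf ^ 2 * (m * G) * u 0) ^ b * (Jf ^ a' * (Jf * g2 * u 2 - m * Jf * G) ^ a')) := by
      rw [hXx]
      ring
    rw [h7]
    exact h
  set φ : MvPolynomial (Fin 2) (kap k u) →+* F :=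
    ((aeval ![u 0, u 2] : MvPolynomial (Fin 2) (kap k u) →ₐ[kap k u] F) :
      MvPolynomial (Fin 2) (kap k u) →+* F) with hφ
  have hSφ : ∀ x, x ∈ S ↔ φ.IsIntegralElem x := hS
  have k3 : Xx * (Jf * g2 * u 0 * u 2) ^ a' ∈ S := by
    have h : Xx * (Jf * g2 * u 0 * u 2) ^ a' = Xx * (Jf * g2 * u 0) ^ a' * u 2 ^ a' := by
      rw [mul_pow _ (u 2)]
      ring
    rw [h]
    exact S.mul_mem k1 (S.pow_mem (hSu 2) _)
  have k4 : Xx * ((Jf * g2 * u 2 - m * Jf * G) * u 0) ^ a' ∈ S := by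
    have h : Xx * ((Jf * g2 * u 2 - m * Jf * G) * u 0) ^ a' =
        Xx * (Jf * g2 * u 2 - m * Jf * G) ^ a' * u 0 ^ a' := by
      rw [mul_pow _ (u 0)]
      ring
    rw [h]
    exact S.mul_mem k2 (S.pow_mem (hSu 0) _)
  have k5 : Xx * (Jf * G * u 0) ^ a' ∈ S := by
    have h := Pool.Agent.H62.HIL.pf_MON' φ ((hSφ _).mp k3) ((hSφ _).mp k4)
      ((hSφ _).mp hSm) ((hSφ _).mp (S.neg_mem hSm))
    have h8 : (m : F)⁻¹ * (Jf * g2 * u 0 * u 2) + -(m : F)⁻¹ *
        ((Jf * g2 * u 2 - m * Jf * G) * u 0) = Jf * G * u 0 := by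
      field_simp
      ring
    rw [h8] at h
    exact (hSφ _).mpr h
  set Y : F := Xx * u 0 ^ a' with hY
  have k6 : Y * (Jf * G) ^ a' ∈ S := by
    have h : Y * (Jf * G) ^ a' = Xx * (Jf * G * u 0) ^ a' := by
      rw [hY, mul_pow _ (u 0)]
      ring
    rw [h]
    exact k5
  have k7 : Y * (Jf * (Jf * g2)) ^ a' ∈ S := by
    have h : Y * (Jf * (Jf * g2)) ^ a' = Xx * (Jf * g2 * u 0) ^ a' * Jf ^ a' := by
      rw [hY, mul_pow _ (u 0), mul_pow Jf]
      ring
    rw [h]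
    exact S.mul_mem k1 (S.pow_mem hSJ _)
  have k8 : ∀ (z1 z2 w : F), z1 ∈ S → z2 ∈ S → w = G * z1 + Jf * g2 * z2 →
      Y * (Jf * w) ^ a' ∈ S := by
    intro z1 z2 w h1 h2 h3
    have h := Pool.Agent.H62.HIL.pf_MON' φ ((hSφ _).mp k6) ((hSφ _).mp k7)
      ((hSφ _).mp h1) ((hSφ _).mp h2)
    have h8 : z1 * (Jf * G) + z2 * (Jf * (Jf * g2)) = Jf * w := by
      rw [h3]
      ring
    rw [h8] at h
    exact (hSφ _).mpr h
  have k9 := k8 _ _ _ ((hS _).mpr (hz 0)) ((hS _).mpr (hz 1)) hN0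
  have k10 := k8 _ _ _ ((hS _).mpr (hz 2)) ((hS _).mpr (hz 3)) hN2
  have hv0 : φ (X 0) = u 0 := by simp [hφ]
  have hv1 : φ (X 1) = u 2 := by simp [hφ]
  have k11 : Y * (Jf ^ 2) ^ a' ∈ S := by
    rw [hSφ]
    refine Pool.Agent.H62.HIL.pf_SAT φ hind
      (Pool.Agent.H62.HIL.isRelPrime_X (κ := kap k u) (i := (0 : Fin 2)) (j := 1) (by decide)
        (N * a') (N * a')) (pow_ne_zero _ (X_ne_zero _)) (pow_ne_zero _ (X_ne_zero _)) ?_ ?_
    · rw [map_pow, hv0, ← hSφ]
      have h : u 0 ^ (N * a') * (Y * (Jf ^ 2) ^ a') = Y * (Jf * (Jf * u 0 ^ N)) ^ a' := by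
        rw [← mul_assoc Jf Jf, mul_pow, ← pow_mul, ← pow_two]
        ring
      rw [h]
      exact k9
    · rw [map_pow, hv1, ← hSφ]
      have h : u 2 ^ (N * a') * (Y * (Jf ^ 2) ^ a') = Y * (Jf * (Jf * u 2 ^ N)) ^ a' := by
        rw [← mul_assoc Jf Jf, mul_pow, ← pow_mul, ← pow_two]
        ring
      rw [h]
      exact k10
  have hfin : c * G ^ (s + b) * Jf ^ (4 * i) * u 0 ^ i =
      ((m : F)⁻¹) ^ (s + b) * (Jf ^ (2 * b + a') * (Y * (Jf ^ 2) ^ a')) := by
    have hbi : i = b + a' := by omega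
    rw [hY, hXx, hbi, inv_pow]
    have hm' : (m : F) ^ (s + b) ≠ 0 := pow_ne_zero _ hmF
    rw [eq_inv_mul_iff_mul_eq₀ hm']
    rw [mul_pow (m : F) G s, mul_pow (Jf ^ 2 * (m * G)) (u 0) b, mul_pow (Jf ^ 2) _ b,
      mul_pow (m : F) G b, ← pow_mul, ← pow_mul]
    ring
  rw [← hS, hfin]
  exact S.mul_mem (S.pow_mem hSm _) (S.mul_mem (S.pow_mem hSJ _) k11)

end Pool.Agent.H92.S2.UTW
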