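import Pool.Agent.H92.SFU.All0
import Pool.Agent.H92.S2.LUA2
import Pool.Agent.H92.S2.DAT
import Pool.Agent.H92.S2.HIV
import Pool.Agent.H92.S2.DEG
import Pool.Agent.H92.S2.FIN
import Pool.Agent.H92.S2.FAC
import Pool.Agent.H92.S2.CTP
import Pool.Agent.H92.S2.FRK
import Pool.Agent.H92.S2.UON
import Pool.Agent.H92.S2.LMG
import Pool.Agent.H92.S2.MUL
import Pool.Agent.H92.S2.QSC
import Pool.Agent.H92.S2.FGB
import Pool.Agent.H92.S2.KQA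
import Pool.Agent.H92.S2.RDT
import Pool.Agent.H92.S2.TRY
import Pool.Agent.H92.S2.UTW
import Pool.Agent.H3.S2.SFW
import Pool.Agent.H13.SFV.UPN2
import Pool.Agent.H19.SFV.RES2
import Pool.Agent.H35.SFV.PEN2
import Pool.Agent.H42.SFV.N2Y
import Pool.Agent.H42.SFV.TRX2
import Pool.Agent.H45.SFV.UTH2
import Pool.Agent.H49.SFV.NUT2
import Pool.Agent.H49.SFV.REA2
import Pool.Agent.H55.SFV.BAS2
import Pool.Agent.H63.SFV.NUN2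
import Pool.Agent.H64.SFV.UPG2
import Pool.Agent.H67.SFV.LTW2
import Pool.Agent.H67.SFV.RED2
import Pool.Agent.H73.SFV.LON2
import Pool.Agent.H78.SFV.LNU2
import Pool.Agent.H78.SFV.NUF2
import Pool.Agent.H91.SFV.KER2
import Pool.Agent.H91.SFV.LTC2

/-!
# MP_70ba79_ag, THEOREM S, part 2: closed rows of the board `sfv_modules`
-/

set_option autoImplicit false

namespace Pool.Agent.H92.S2

open Pool.Agent.H3.SF Pool.Agent.H3.S2 Pool.Agent.H92.SF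

theorem dat2 : T_DAT2 := DAT.pf_DAT2
theorem hiv2 : T_HIV2 := HIV.pf_HIV2 Pool.Agent.H92.SFU.hmr dat2
theorem deg2 : T_DEG2 := DEG.pf_DEG2 dat2
theorem fin2 : T_FIN2 := FIN.pf_FIN2 dat2 deg2
theorem fac2 : T_FAC2 := FAC.pf_FAC2
theorem ctp2 : T_CTP2 := CTP.pf_CTP2 dat2
theorem frk2 : T_FRK2 := FRK.pf_FRK2 Pool.Agent.H92.SFU.pen0 dat2
theorem uon2 : T_UON2 := UON.pf_UON2 dat2 fin2 frk2
theorem bas2 : T_BAS2 := Pool.Agent.H55.SFV.pf_BAS2 dat2 frk2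
theorem utw2 : T_UTW2 := UTW.pf_UTW2 dat2 frk2 bas2
theorem uth2 : T_UTH2 := Pool.Agent.H45.SFV.pf_UTH2 dat2 frk2 deg2 fac2 utw2
theorem lmg2 : T_LMG2 := LMG.pf_LMG2 Pool.Agent.H62.HIL.pfr_LMH
  Pool.Agent.H30.SFH.pf_NRM Pool.Agent.H62.HIL.pfr_NGD Pool.Agent.H92.SFU.pen0 frk2 dat2
  Pool.Agent.H92.SFU.cpc
theorem trx2 : T_TRX2 := Pool.Agent.H42.SFV.pf_TRX2 dat2
theorem try2 : T_TRY2 := TRY.pf_TRY2 dat2 trx2
theorem mul2 : T_MUL2 := MUL.pf_MUL2 dat2 Pool.Agent.H19.SRF.pf_TWM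
theorem qsc2 : T_QSC2 := QSC.pf_QSC2 dat2
theorem rea2 : T_REA2 := Pool.Agent.H49.SFV.pf_REA2 hiv2 dat2
theorem fgb2 : T_FGB2 := FGB.pf_FGB2 dat2
theorem red2 : T_RED2 := Pool.Agent.H67.SFV.pf_RED2 dat2 rea2 Pool.Agent.H92.SFU.reb fgb2
theorem ltc2 : T_LTC2 := Pool.Agent.H91.SFV.pf_LTC2 dat2 mul2 qsc2 red2
theorem kqa2 : T_KQA2 := KQA.pf_KQA2 dat2
theorem ker2 : T_KER2 := Pool.Agent.H91.SFV.pf_KER2 dat2 kqa2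
theorem lon2 : T_LON2 := Pool.Agent.H73.SFV.pf_LON2 fin2 dat2 ltc2 ker2
theorem res2 : T_RES2 := Pool.Agent.H19.SFV.pf_RES2 dat2
theorem rdt2 : T_RDT2 := RDT.pf_RDT2
theorem ltw2 : T_LTW2 := Pool.Agent.H67.SFV.pf_LTW2 dat2 deg2 fin2 res2 rdt2
theorem nuf2 : T_NUF2 := Pool.Agent.H78.SFV.pf_NUF2 Pool.Agent.H92.SFU.nsa
theorem nut2 : T_NUT2 := Pool.Agent.H49.SFV.pf_NUT2 Pool.Agent.H92.SFU.nsa
theorem nun2 : T_NUN2 := Pool.Agent.H63.SFV.pf_NUN2 Pool.Agent.H92.SFU.nsa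
theorem upn2 : T_UPN2 := Pool.Agent.H13.SFV.pf_UPN2 frk2 fin2 uon2 uth2 lmg2
theorem upg2 : T_UPG2 := Pool.Agent.H64.SFV.pf_UPG2 fin2 frk2 fac2 uon2 uth2

theorem n2y : T_N2Y := Pool.Agent.H42.SFV.pf_N2Y dat2
theorem lnu2 : T_LNU2 := Pool.Agent.H78.SFV.pf_LNU2 Pool.Agent.H92.SFU.nsa
theorem pen2 : T_PEN2 := Pool.Agent.H35.SFV.pf_PEN2 (Pool.Agent.H3.S2.pf_SFW
  Pool.Agent.H92.SFU.sf1 Pool.Agent.H62.HIL.pfr_NGD Pool.Agent.H35.SFH.pf_NDV) trx2 n2y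
theorem lov2 : T_LOV2 := pf_LOV2 lnu2 lon2 ltw2

/-- NG2 -/
theorem ng2 : T_NG2 := pf_NG2 lov2 nun2 upn2 try2 pen2

/-- MF2 -/
theorem mf2 : T_MF2 := pf_MF2 lov2 nuf2 upg2 try2 pen2 lmg2 ctp2

/-- MT2 -/
theorem mt2 : T_MT2 := pf_MT2 lov2 nut2 upg2 trx2 try2 pen2 lmg2 frk2 deg2
  Pool.Agent.H92.SFU.den Pool.Agent.H92.SFU.sf1

end Pool.Agent.H92.S2
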