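import Pool.Agent.H3.S2.Defs
import Pool.Agent.H92.SF.LUT

/-!
# MP_70ba79_ag, THEOREM S, part 2: bounds for the spaces of sections, reduced curves: definitions

`Bw`: the data of the surface and of the reduced curve `G = 0`; `Gw`: the projection from
`(0 : 0 : 1)` is in general position with respect to `G = 0`: `J * dd 2 G` is no zero divisor modulo
`G`, apart from the components of `G = 0` on which `J` is zero.
-/

set_option autoImplicit false

namespace Pool.Agent.H92.S2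

open MvPolynomial
open Pool.Agent.H84.SM (dp cr dt)
open Pool.Agent.H3.SF Pool.Agent.H3.S2 Pool.Agent.H92.SF

section Data

variable {k F : Type} [Field k] [Field F] [Algebra k F]

/-- the data of the surface and of the reduced curve `G = 0` on it -/
structure Bw (u : Fin 3 → F) (dd : Fin 3 → Derivation k F F) (δ j0 c0 : ℕ)
    (J : MvPolynomial (Fin 3) k) (m : ℕ) (G : F) : Prop where
  ind : AlgebraicIndependent k u
  rank : Module.finrank (kF k u) F = δ
  pos : 1 ≤ δ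
  du : ∀ l j, dd l (u j) = if l = j then 1 else 0
  comm : ∀ l l' a, dd l (dd l' a) = dd l' (dd l a)
  Jh : J.IsHomogeneous j0
  J0 : J ≠ 0
  Jd : ∀ l a, Itg k u a → Itg k u (aeval u J * dd l a)
  neg : ∀ t : ℤ, t < 0 → BB k u (eu u dd) t = ⊥
  fin : ∀ t : ℤ, Module.Finite k (BB k u (eu u dd) t)
  up : ∀ t : ℕ, 2 * Module.finrank k (BB k u (eu u dd) t) ≤ δ * (t + c0) ^ 2
  lo : ∀ t : ℕ, c0 ≤ t → δ * (t - c0) ^ 2 ≤ 2 * Module.finrank k (BB k u (eu u dd) t)
  big : j0 + 4 ≤ m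
  ne : G ≠ 0
  itg : Itg k u G
  hom : Hm k (eu u dd) m G
  red : ∀ a, Itg k u a → Itg k u (a * a / G) → Itg k u (a / G)

theorem Bw.of {u : Fin 3 → F} {dd : Fin 3 → Derivation k F F} {δ j0 c0 : ℕ}
    {J : MvPolynomial (Fin 3) k} {m : ℕ} {G : F} {sg : ℕ} {S : MvPolynomial (Fin 3) k}
    (h1 : Sfc u dd δ j0 c0 J) (h2 : Crs u dd m G sg S)
    (h3 : j0 + 4 ≤ m) : Bw u dd δ j0 c0 J m G :=
  ⟨h1.ind, h1.rank, h1.pos, h1.du, h1.comm, h1.Jh, h1.J0, h1.Jd, h1.neg, h1.fin, h1.up, h1.lo, h3,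
    h2.ne, h2.itg, h2.hom, h2.red⟩

/-- the same and the point `(0 : 0 : 1)` is in general position -/
structure Gw (u : Fin 3 → F) (dd : Fin 3 → Derivation k F F) (δ j0 c0 : ℕ)
    (J : MvPolynomial (Fin 3) k) (m : ℕ) (G : F) : Prop extends Bw u dd δ j0 c0 J m G where
  mon : ∃ (N : ℕ) (q : MvPolynomial (Fin 3) k), 1 ≤ N ∧ q.IsHomogeneous N ∧
    q.coeff (Finsupp.single 2 N) = 1 ∧ Itg k u (aeval u q / G)
  n2 : ∀ z, Itg k u z → Itg k u (aeval u J * dd 2 G * z / G) → Itg k u (aeval u J * z / G)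

end Data

end Pool.Agent.H92.S2
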